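import Pool.Agent.VKC.Region

/-!
# VKC.PrimeC: Gaussian sums over primes and over the Möbius function, twisted by `χ ≠ 1`

PROOF. As `Pool/Agent/VKZ/PrimeG.lean` (copy the private lemmas `PrimeG_log`, `PrimeG_small`, `PrimeG_shift`,
`PrimeG_gint_congr`, `PrimeG_series`, `PrimeG_summ`, `PrimeG_mellin`; the tools `VKZ.gauss_mellin`, `VKZ.shift_le` are public in
`Pool/Agent/VKZ/Contour.lean`), without main term: `F = -L'/L(s,χ)` resp. `F = 1/L(s,χ)`; both are analytic in the region of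
`VKC.region`, and for `1 < σ ≤ 2` they are at most `C/(σ-1)` by `VKC.L_log` and `VKC.L_lower`. The Dirichlet series
are in Mathlib: `DirichletCharacter.LSeries_twist_vonMangoldt_eq`, `DirichletCharacter.LSeries.mul_mu_eq_one`,
`DirichletCharacter.LFunction_eq_LSeries`, `DirichletCharacter.deriv_LFunction_eq_deriv_LSeries`,
`DirichletCharacter.LSeriesSummable_twist_vonMangoldt`, `DirichletCharacter.LSeriesSummable_mul`.
-/

namespace VKC

open ArithmeticFunction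

private theorem PrimeC_log {K w x : ℝ} (hw : 1 ≤ w) (hx : x ≤ Real.exp (K * w) + w) (hx0 : 0 ≤ x) :
    0 < Real.log (x + 3) ∧ Real.log (x + 3) ≤ (|K| + 5) * w := by
  constructor
  · exact Real.log_pos (by linarith)
  · have h1 : Real.exp (K * w) ≤ Real.exp ((|K| + 3) * w) := by
      refine Real.exp_le_exp.2 ?_
      have := le_abs_self K
      nlinarith
    have h2 : w ≤ Real.exp ((|K| + 3) * w) := by
      have h3 := Real.add_one_le_exp ((|K| + 3) * w)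
      have h4 := abs_nonneg K
      nlinarith
    have h3 : (3 : ℝ) ≤ Real.exp ((|K| + 3) * w) := by
      have h3 := Real.add_one_le_exp ((|K| + 3) * w)
      have h4 := abs_nonneg K
      nlinarith
    have h4 : (3 : ℝ) ≤ Real.exp (2 * w) := by
      have := Real.add_one_le_exp (2 * w)
      linarith
    have h5 : x + 3 ≤ Real.exp ((|K| + 5) * w) := by
      have e : Real.exp ((|K| + 5) * w) = Real.exp (2 * w) * Real.exp ((|K| + 3) * w) := by
        rw [← Real.exp_add]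
        congr 1
        ring
      rw [e]
      have h6 : 0 < Real.exp ((|K| + 3) * w) := Real.exp_pos _
      nlinarith
    calc Real.log (x + 3) ≤ Real.log (Real.exp ((|K| + 5) * w)) :=
          Real.log_le_log (by linarith) h5
      _ = (|K| + 5) * w := Real.log_exp _

private theorem PrimeC_small (D q κ A : ℝ) (hκ : 0 < κ) :
    ∃ w0 : ℝ, 1 ≤ w0 ∧ ∀ w : ℝ, w0 ≤ w →
      D * w ^ q * Real.exp (-κ * w ^ (1 / 20 : ℝ)) ≤ w ^ (-A) / 2 := by
  have h1 := tendsto_rpow_mul_exp_neg_mul_atTop_nhds_zero (20 * (q + A)) κ hκ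
  have h2 : Filter.Tendsto (fun w : ℝ => w ^ (1 / 20 : ℝ)) Filter.atTop Filter.atTop :=
    tendsto_rpow_atTop (by norm_num)
  have h3 := (h1.comp h2).const_mul D
  rw [mul_zero] at h3
  have h4 := h3.eventually_le_const (show (0 : ℝ) < 1 / 2 by norm_num)
  obtain ⟨w0, hw0⟩ := Filter.eventually_atTop.1 h4
  refine ⟨max 1 w0, le_max_left _ _, fun w hw => ?_⟩
  have hw1 : 1 ≤ w := (le_max_left _ _).trans hw
  have hwp : 0 < w := by linarith
  have h5 := hw0 w ((le_max_right _ _).trans hw)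
  simp only [Function.comp_apply] at h5
  have h6 : (w ^ (1 / 20 : ℝ)) ^ (20 * (q + A)) = w ^ q * w ^ A := by
    rw [← Real.rpow_mul hwp.le, ← Real.rpow_add hwp]
    congr 1
    ring
  rw [h6] at h5
  have h7 : 0 < w ^ A := Real.rpow_pos_of_pos hwp _
  rw [Real.rpow_neg hwp.le, inv_eq_one_div, div_div, le_div_iff₀ (by positivity)]
  calc D * w ^ q * Real.exp (-κ * w ^ (1 / 20 : ℝ)) * (w ^ A * 2)
      = D * (w ^ q * w ^ A * Real.exp (-κ * w ^ (1 / 20 : ℝ))) * 2 := by ring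
    _ ≤ 1 / 2 * 2 := by gcongr
    _ = 1 := by norm_num

private theorem PrimeC_shift {F : ℂ → ℂ} {c C C2 : ℝ} (hc : 0 < c) (hc1 : c ≤ 1 / 4)
    (hC : 1 ≤ C) (hC2 : 0 ≤ C2)
    (hF : ∀ z : ℂ, z.re ≤ 3 → 1 - c * (Real.log (|z.im| + 3)) ^ (-(19 : ℝ) / 20) ≤ z.re →
      AnalyticAt ℂ F z ∧ ‖F z‖ ≤ C * Real.log (|z.im| + 3) ^ C)
    (hF' : ∀ z : ℂ, 1 < z.re → z.re ≤ 2 → ‖F z‖ ≤ C2 / (z.re - 1)) (K : ℝ) :
    ∃ D κ q : ℝ, 0 < κ ∧ ∀ w τ : ℝ, 1 ≤ w → |τ| ≤ Real.exp (K * w) →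
      ‖VKZ.gint F (1 / w) w τ‖ ≤ D * w ^ q * Real.exp (-κ * w ^ (1 / 20 : ℝ)) := by
  obtain ⟨K1, hK1⟩ : ∃ K1 : ℝ, K1 = |K| + 5 := ⟨_, rfl⟩
  have hK5 : 5 ≤ K1 := by
    rw [hK1]
    have := abs_nonneg K
    linarith
  have hK0 : 0 < K1 := by linarith
  obtain ⟨c', hc'⟩ : ∃ c' : ℝ, c' = c * K1 ^ (-(19 : ℝ) / 20) := ⟨_, rfl⟩
  have hc'0 : 0 < c' := by
    rw [hc']
    exact mul_pos hc (Real.rpow_pos_of_pos hK0 _)
  refine ⟨C * K1 ^ C * Real.exp 1 + 4 * (C * K1 ^ C) * Real.exp 2 + 6 * C2 * Real.exp 2,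
    min c' (1 / 4), C + 1, lt_min hc'0 (by norm_num), fun w τ hw hτ => ?_⟩
  obtain ⟨κ, hκ⟩ : ∃ κ : ℝ, κ = min c' (1 / 4) := ⟨_, rfl⟩
  rw [← hκ]
  have hκ1 : κ ≤ c' := by rw [hκ]; exact min_le_left _ _
  have hκ2 : κ ≤ 1 / 4 := by rw [hκ]; exact min_le_right _ _
  have hκ0 : 0 < κ := by rw [hκ]; exact lt_min hc'0 (by norm_num)
  have hwp : 0 < w := by linarith
  have hKw : 1 ≤ K1 * w := by nlinarith
  -- the width
  obtain ⟨b, hb⟩ : ∃ b : ℝ, b = c * (K1 * w) ^ (-(19 : ℝ) / 20) := ⟨_, rfl⟩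
  have hb0 : 0 < b := by
    rw [hb]
    exact mul_pos hc (Real.rpow_pos_of_pos (by linarith) _)
  have hb1 : b ≤ 1 / 4 := by
    rw [hb]
    have : (K1 * w) ^ (-(19 : ℝ) / 20) ≤ 1 :=
      Real.rpow_le_one_of_one_le_of_nonpos hKw (by norm_num)
    nlinarith
  have hbw : b * w = c' * w ^ (1 / 20 : ℝ) := by
    rw [hb, hc', Real.mul_rpow hK0.le hwp.le]
    have : w ^ (-(19 : ℝ) / 20) * w = w ^ (1 / 20 : ℝ) := by
      rw [← Real.rpow_add_one hwp.ne']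
      congr 1
      norm_num
    rw [← this]
    ring
  have hroot : w ^ (1 / 20 : ℝ) ≤ w := by
    calc w ^ (1 / 20 : ℝ) ≤ w ^ (1 : ℝ) := Real.rpow_le_rpow_of_exponent_le hw (by norm_num)
      _ = w := Real.rpow_one w
  have hroot0 : 0 < w ^ (1 / 20 : ℝ) := Real.rpow_pos_of_pos hwp _
  obtain ⟨B, hB⟩ : ∃ B : ℝ, B = C * (K1 * w) ^ C := ⟨_, rfl⟩
  have hB0 : 0 ≤ B := by
    rw [hB]
    exact mul_nonneg (by linarith) (Real.rpow_nonneg (by linarith) _)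
  have hσ0 : 0 < 1 / w := by positivity
  have hσ1 : 1 / w ≤ 1 := by
    rw [div_le_one hwp]
    exact hw
  have hregion : ∀ z : ℂ, 1 - b ≤ z.re → z.re ≤ 2 → |z.im - τ| ≤ w →
      AnalyticAt ℂ F z ∧ ‖F z‖ ≤ B := by
    intro z h1 h2 h3
    have him : |z.im| ≤ Real.exp (K * w) + w := by
      have h4 : |z.im| ≤ |z.im - τ| + |τ| := by
        have := abs_add_le (z.im - τ) τ
        simpa using this
      linarith
    obtain ⟨hl0, hl1⟩ := PrimeC_log (K := K) hw him (abs_nonneg _)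
    rw [← hK1] at hl1
    have h5 : (K1 * w) ^ (-(19 : ℝ) / 20) ≤ (Real.log (|z.im| + 3)) ^ (-(19 : ℝ) / 20) :=
      Real.rpow_le_rpow_of_nonpos hl0 hl1 (by norm_num)
    have h6 : 1 - c * (Real.log (|z.im| + 3)) ^ (-(19 : ℝ) / 20) ≤ z.re := by
      have : b ≤ c * (Real.log (|z.im| + 3)) ^ (-(19 : ℝ) / 20) := by
        rw [hb]
        exact mul_le_mul_of_nonneg_left h5 hc.le
      linarith
    obtain ⟨h7, h8⟩ := hF z (by linarith) h6
    refine ⟨h7, h8.trans ?_⟩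
    rw [hB]
    exact mul_le_mul_of_nonneg_left (Real.rpow_le_rpow hl0.le hl1 (by linarith)) (by linarith)
  have hline : ∀ v : ℝ, (1 + (τ : ℂ) * Complex.I + (((1 / w : ℝ) : ℂ) + v * Complex.I)).re =
      1 + 1 / w := by
    intro v
    simp
  have hbd : ∀ v : ℝ, ‖F (1 + τ * Complex.I + (((1 / w : ℝ) : ℂ) + v * Complex.I))‖ ≤ C2 * w := by
    intro v
    have h1 := hF' (1 + τ * Complex.I + (((1 / w : ℝ) : ℂ) + v * Complex.I))
      (by rw [hline]; linarith) (by rw [hline]; linarith)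
    rw [hline] at h1
    have h2 : C2 / (1 + 1 / w - 1) = C2 * w := by
      field_simp
      ring
    rwa [h2] at h1
  have hcont : Continuous fun v : ℝ => F (1 + τ * Complex.I +
      (((1 / w : ℝ) : ℂ) + v * Complex.I)) := by
    rw [continuous_iff_continuousAt]
    intro v
    have h1 : ContinuousAt F (1 + τ * Complex.I + (((1 / w : ℝ) : ℂ) + v * Complex.I)) := by
      refine (hF _ (by rw [hline]; linarith) ?_).1.continuousAt
      rw [hline]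
      have h2 : 0 ≤ c * (Real.log (|(1 + τ * Complex.I +
          (((1 / w : ℝ) : ℂ) + v * Complex.I)).im| + 3)) ^ (-(19 : ℝ) / 20) := by
        refine mul_nonneg hc.le (Real.rpow_nonneg (Real.log_nonneg ?_) _)
        have := abs_nonneg (1 + (τ : ℂ) * Complex.I +
          (((1 / w : ℝ) : ℂ) + v * Complex.I)).im
        linarith
      linarith
    refine ContinuousAt.comp (f := fun v : ℝ => 1 + (τ : ℂ) * Complex.I +
      (((1 / w : ℝ) : ℂ) + v * Complex.I)) h1 ?_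
    fun_prop
  have hsh := VKZ.shift_le (F := F) (b := b) (B := B) (B' := C2 * w) (σ := 1 / w) (w := w) (τ := τ)
    (V := w) hb0 (by linarith) hσ0 hσ1 hwp.le hw hB0 (by positivity) hregion hbd hcont
  refine hsh.trans ?_
  have hσw : 1 / w * w = 1 := by field_simp
  have hσsq : (1 / w) ^ 2 ≤ 1 := pow_le_one₀ hσ0.le hσ1
  have hbsq : b ^ 2 ≤ 1 := pow_le_one₀ hb0.le (by linarith)
  have hE : Real.exp (-κ * w ^ (1 / 20 : ℝ)) = Real.exp (-κ * w ^ (1 / 20 : ℝ)) := rfl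
  have hww : w ≤ w ^ 2 := by nlinarith
  -- the three exponentials
  have e1 : Real.exp (b ^ 2 / 2 - b * w) ≤ Real.exp 1 * Real.exp (-κ * w ^ (1 / 20 : ℝ)) := by
    rw [← Real.exp_add, hbw]
    refine Real.exp_le_exp.2 ?_
    nlinarith
  have e2 : Real.exp (((1 / w) ^ 2 + b ^ 2 - w ^ 2) / 2 + 1 / w * w) ≤
      Real.exp 2 * Real.exp (-κ * w ^ (1 / 20 : ℝ)) := by
    rw [← Real.exp_add, hσw]
    refine Real.exp_le_exp.2 ?_
    nlinarith
  have e3 : Real.exp ((1 / w) ^ 2 / 2 + 1 / w * w - w ^ 2 / 4) ≤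
      Real.exp 2 * Real.exp (-κ * w ^ (1 / 20 : ℝ)) := by
    rw [← Real.exp_add, hσw]
    refine Real.exp_le_exp.2 ?_
    nlinarith
  have hEp : 0 < Real.exp (-κ * w ^ (1 / 20 : ℝ)) := Real.exp_pos _
  have hBw : B ≤ C * K1 ^ C * w ^ (C + 1) := by
    rw [hB, Real.mul_rpow hK0.le hwp.le, mul_assoc]
    refine mul_le_mul_of_nonneg_left (mul_le_mul_of_nonneg_left
      (Real.rpow_le_rpow_of_exponent_le hw (by linarith)) (Real.rpow_nonneg hK0.le _))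
      (by linarith)
  have hww2 : w ≤ w ^ (C + 1) := by
    calc w = w ^ (1 : ℝ) := (Real.rpow_one w).symm
      _ ≤ w ^ (C + 1) := Real.rpow_le_rpow_of_exponent_le hw (by linarith)
  have hwC : 0 < w ^ (C + 1) := Real.rpow_pos_of_pos hwp _
  have hbσ : b + 1 / w ≤ 2 := by linarith
  calc B * Real.exp (b ^ 2 / 2 - b * w) +
      2 * B * (b + 1 / w) * Real.exp (((1 / w) ^ 2 + b ^ 2 - w ^ 2) / 2 + 1 / w * w) +
      6 * (C2 * w) * Real.exp ((1 / w) ^ 2 / 2 + 1 / w * w - w ^ 2 / 4)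
      ≤ (C * K1 ^ C * w ^ (C + 1)) * (Real.exp 1 * Real.exp (-κ * w ^ (1 / 20 : ℝ))) +
      2 * (C * K1 ^ C * w ^ (C + 1)) * 2 * (Real.exp 2 * Real.exp (-κ * w ^ (1 / 20 : ℝ))) +
      6 * (C2 * w ^ (C + 1)) * (Real.exp 2 * Real.exp (-κ * w ^ (1 / 20 : ℝ))) := by
        gcongr
    _ = _ := by ring

private theorem PrimeC_gint_congr {F G : ℂ → ℂ} {σ : ℝ} (w τ : ℝ)
    (h : ∀ z : ℂ, z.re = 1 + σ → F z = G z) : VKZ.gint F σ w τ = VKZ.gint G σ w τ := by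
  unfold VKZ.gint
  congr 1
  refine MeasureTheory.integral_congr_ae (Filter.Eventually.of_forall fun v => ?_)
  simp only
  rw [h]
  simp

private theorem PrimeC_series {f : ℕ → ℂ} (h0 : f 0 = 0) (z : ℂ) :
    ∑' n : ℕ, f n * (n : ℂ) ^ (-z) = LSeries f z := by
  unfold LSeries
  refine tsum_congr fun n => ?_
  rcases Nat.eq_zero_or_pos n with rfl | hn
  · simp [h0]
  · rw [LSeries.term_of_ne_zero hn.ne', Complex.cpow_neg, div_eq_mul_inv]

private theorem PrimeC_summ {f : ℕ → ℂ} (h0 : f 0 = 0) {σ : ℝ} (h : LSeriesSummable f σ) :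
    Summable fun n : ℕ => ‖f n‖ * (n : ℝ) ^ (-σ) := by
  have h1 : Summable fun n => ‖LSeries.term f σ n‖ := h.norm
  refine h1.congr fun n => ?_
  rcases Nat.eq_zero_or_pos n with rfl | hn
  · simp [h0]
  · rw [LSeries.norm_term_eq, if_neg hn.ne', Complex.ofReal_re, Real.rpow_neg (by positivity),
      div_eq_mul_inv]

private theorem PrimeC_mellin {f : ℕ → ℂ} (h0 : f 0 = 0)
    (h : ∀ σ : ℝ, 1 < σ → LSeriesSummable f σ) {G : ℂ → ℂ}
    (hG : ∀ z : ℂ, 1 < z.re → LSeries f z = G z) {σ : ℝ} (hσ : 0 < σ) (w τ : ℝ) :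
    ∑' n : ℕ, f n * (n : ℂ) ^ (-(1 + τ * Complex.I)) * Real.exp (-(Real.log n - w) ^ 2 / 2) =
      VKZ.gint G σ w τ := by
  rw [VKZ.gauss_mellin (fun σ hσ => PrimeC_summ h0 (h σ hσ)) h0 hσ w τ]
  refine PrimeC_gint_congr w τ fun z hz => ?_
  rw [PrimeC_series h0, hG z (by rw [hz]; linarith)]

private theorem PrimeC_an {M : ℕ} [NeZero M] {χ : DirichletCharacter ℂ M} (hχ : χ ≠ 1) (z : ℂ) :
    AnalyticAt ℂ χ.LFunction z :=
  (DirichletCharacter.differentiable_LFunction hχ).analyticAt z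

private theorem PrimeC_fin {M : ℕ} [NeZero M] {χ : DirichletCharacter ℂ M} {a : ℕ → ℝ}
    (ha0 : a 0 = 0) {F : ℂ → ℂ} {c C C2 : ℝ} (hc : 0 < c) (hc1 : c ≤ 1 / 4)
    (hC : 1 ≤ C) (hC2 : 0 ≤ C2)
    (hF : ∀ z : ℂ, z.re ≤ 3 → 1 - c * (Real.log (|z.im| + 3)) ^ (-(19 : ℝ) / 20) ≤ z.re →
      AnalyticAt ℂ F z ∧ ‖F z‖ ≤ C * Real.log (|z.im| + 3) ^ C)
    (hF' : ∀ z : ℂ, 1 < z.re → z.re ≤ 2 → ‖F z‖ ≤ C2 / (z.re - 1))
    (hs : ∀ σ : ℝ, 1 < σ → LSeriesSummable (fun n => χ n * ((a n : ℝ) : ℂ)) σ)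
    (hG : ∀ z : ℂ, 1 < z.re → LSeries (fun n => χ n * ((a n : ℝ) : ℂ)) z = F z) (K A : ℝ) :
    ∃ w0 : ℝ, 1 ≤ w0 ∧ ∀ w τ : ℝ, w0 ≤ w → |τ| ≤ Real.exp (K * w) →
      ‖gc χ a w τ‖ ≤ w ^ (-A) := by
  obtain ⟨D, κ, q, hκ, hb⟩ := PrimeC_shift hc hc1 hC hC2 hF hF' K
  obtain ⟨w0, hw0, hs1⟩ := PrimeC_small D q κ A hκ
  refine ⟨w0, hw0, fun w τ hw hτ => ?_⟩
  have hw1 : 1 ≤ w := hw0.trans hw
  have hwp : 0 < w := by linarith
  have h0 : (fun n : ℕ => χ n * ((a n : ℝ) : ℂ)) 0 = 0 := by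
    simp [ha0]
  have h1 : gc χ a w τ = VKZ.gint F (1 / w) w τ := by
    have h2 := PrimeC_mellin (f := fun n => χ n * ((a n : ℝ) : ℂ)) h0 hs hG (σ := 1 / w)
      (by positivity) w τ
    rw [← h2]
    unfold gc
    refine tsum_congr fun n => ?_
    ring
  rw [h1]
  have h2 := hb w τ hw1 hτ
  have h3 := hs1 w hw
  have h4 : 0 < w ^ (-A) := Real.rpow_pos_of_pos hwp _
  linarith

theorem prime_gauss {M : ℕ} [NeZero M] {χ : DirichletCharacter ℂ M} (hχ : χ ≠ 1) (K A : ℝ) :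
    ∃ w0 : ℝ, 1 ≤ w0 ∧ ∀ w τ : ℝ, w0 ≤ w → |τ| ≤ Real.exp (K * w) →
    ‖gc χ (fun n => vonMangoldt n) w τ‖ ≤ w ^ (-A) := by
  obtain ⟨c, C, hc, hc1, hC, hreg⟩ := region hχ
  obtain ⟨c2, hc2, hup⟩ := L_log M
  refine PrimeC_fin (F := fun z => -(deriv χ.LFunction z / χ.LFunction z)) (C2 := 1 + c2)
    (by simp) hc hc1 hC (by linarith) ?_ ?_ ?_ ?_ K A
  · intro z h1 h2
    obtain ⟨h3, h4, -⟩ := hreg z h1 h2
    refine ⟨((PrimeC_an hχ z).deriv.div (PrimeC_an hχ z) h3).neg, ?_⟩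
    rw [norm_neg]
    exact h4
  · intro z h1 h2
    rw [norm_neg]
    have h3 := hup χ z h1
    have h4 : 0 < z.re - 1 := by linarith
    have h6 : c2 ≤ c2 / (z.re - 1) := by
      rw [le_div_iff₀ h4]
      nlinarith
    rw [add_div]
    linarith
  · intro σ hσ
    exact DirichletCharacter.LSeriesSummable_twist_vonMangoldt χ (by simpa using hσ)
  · intro z hz
    have h1 := DirichletCharacter.LSeries_twist_vonMangoldt_eq χ hz
    have h2 := DirichletCharacter.deriv_LFunction_eq_deriv_LSeries χ hz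
    have h3 := DirichletCharacter.LFunction_eq_LSeries χ hz
    have h4 : LSeries (fun n => χ n * ((ArithmeticFunction.vonMangoldt n : ℝ) : ℂ)) z =
        -deriv (LSeries (χ ·)) z / LSeries (χ ·) z := h1
    rw [h4, h2, h3, neg_div]

theorem mu_gauss {M : ℕ} [NeZero M] {χ : DirichletCharacter ℂ M} (hχ : χ ≠ 1) (K A : ℝ) :
    ∃ w0 : ℝ, 1 ≤ w0 ∧ ∀ w τ : ℝ, w0 ≤ w → |τ| ≤ Real.exp (K * w) →
    ‖gc χ (fun n => (moebius n : ℝ)) w τ‖ ≤ w ^ (-A) := by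
  obtain ⟨c, C, hc, hc1, hC, hreg⟩ := region hχ
  obtain ⟨c2, hc2, hlow⟩ := L_lower M
  have hcast : ∀ n : ℕ, (((moebius n : ℤ) : ℝ) : ℂ) = ((moebius n : ℤ) : ℂ) := fun n => by
    push_cast
    rfl
  refine PrimeC_fin (F := fun z => (χ.LFunction z)⁻¹) (C2 := 1 / c2)
    (by simp) hc hc1 hC (by positivity) ?_ ?_ ?_ ?_ K A
  · intro z h1 h2
    obtain ⟨h3, -, h4⟩ := hreg z h1 h2
    exact ⟨(PrimeC_an hχ z).inv h3, h4⟩
  · intro z h1 h2
    rw [norm_inv]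
    have h3 := hlow χ z h1 (by linarith)
    have h4 : 0 < c2 * (z.re - 1) := mul_pos hc2 (by linarith)
    calc ‖χ.LFunction z‖⁻¹ ≤ (c2 * (z.re - 1))⁻¹ := inv_anti₀ h4 h3
      _ = (1 / c2) / (z.re - 1) := by
        rw [mul_inv, one_div, div_eq_mul_inv]
  · intro σ hσ
    simp only [hcast]
    exact DirichletCharacter.LSeriesSummable_mul χ
      (LSeriesSummable_moebius_iff.2 (by simpa using hσ))
  · intro z hz
    have h0 := DirichletCharacter.LSeries.mul_mu_eq_one χ hz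
    have h0' : LSeries (fun n => χ n) z *
        LSeries (fun n => χ n * ((ArithmeticFunction.moebius n : ℤ) : ℂ)) z = 1 := h0
    simp only [hcast]
    rw [DirichletCharacter.LFunction_eq_LSeries χ hz]
    exact eq_inv_of_mul_eq_one_right h0'

end VKC
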