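import Pool.Agent.VKC.ExpB

/-!
# VKC.ClassSum: the sums of `χ(n) n^(-it)`

PROOF. Let `c0, C0` be the constants of `VKC.exp_sum` (we may assume `c0 ≤ 1/20`). If `a < (8M)^2` use the trivial bound
`b - a ≤ a` and `(log a)^6/(log t)^5 ≤ 4 log a` (as `log t ≥ (4/5) log a`), so `C ≥ (8M)^2` is enough for `c ≤ 1/20`. Otherwise split
`n` by its residue `r = n % M`, `0 ≤ r < M`: `n = M m + r`, `n^(-it) = M^(-it) (m + r/M)^(-it)`, `χ(n) = χ(r)` is constant. The
`m` which occur are those of an interval `(a', b']` with `a' = ⌈..⌉` close to `(a-r)/M`: `a/(2M) ≤ a' ≤ a/M` and `b' ≤ 2a' + 4`; so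
all but at most 4 of them are in `(a', min b' (2a')]`. `VKC.exp_sum` with `β = r/M`, `a' ^ (4/5) ≤ a ^ (4/5) ≤ t`, gives
the bound `C0 a' exp(-c0 (log a')^6/(log t)^5) + 4`, and `log a' ≥ (1/2) log a` because `a' ≥ a/(2M) ≥ √a`, hence
`(log a')^6 ≥ (log a)^6/64`. Put `c = c0/64`; the `4` is at most `4 a exp(-c (log a)^6/(log t)^5)`. Sum over the `M` residues. (The
constants are allowed to depend on `M`.)
-/

namespace VKC

open Finset

lemma classSum_norm_cpow (x : ℝ) (hx : 0 < x) (t : ℝ) :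
    ‖(x : ℂ) ^ (-(t * Complex.I))‖ = 1 := by
  rw [Complex.norm_cpow_eq_rpow_re_of_pos hx]
  simp

/-- Facts on logarithms. -/
lemma classSum_ratio {a t : ℝ} (ha : 2 ≤ a) (ht : a ^ ((4 : ℝ) / 5) ≤ t) :
    0 < Real.log a ∧ 0 < Real.log t ∧ Real.log a ^ 6 / Real.log t ^ 5 ≤ 4 * Real.log a := by
  have hL : 0 < Real.log a := Real.log_pos (by linarith)
  have hT : (4 / 5) * Real.log a ≤ Real.log t := by
    have h1 : Real.log (a ^ ((4 : ℝ) / 5)) = (4 / 5) * Real.log a := Real.log_rpow (by linarith) _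
    rw [← h1]
    exact Real.log_le_log (Real.rpow_pos_of_pos (by linarith) _) ht
  have hT0 : 0 < Real.log t := lt_of_lt_of_le (by positivity) hT
  refine ⟨hL, hT0, ?_⟩
  rw [div_le_iff₀ (by positivity)]
  have h2 : ((4 / 5) * Real.log a) ^ 5 ≤ Real.log t ^ 5 := pow_le_pow_left₀ (by positivity) hT 5
  have h3 : Real.log a ^ 6 ≤ 4 * Real.log a * ((4 / 5) * Real.log a) ^ 5 := by
    have h4 : 4 * Real.log a * ((4 / 5) * Real.log a) ^ 5 =
        (4096 / 3125) * Real.log a ^ 6 := by ring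
    rw [h4]
    have : 0 ≤ Real.log a ^ 6 := by positivity
    linarith
  exact h3.trans (mul_le_mul_of_nonneg_left h2 (by positivity))

lemma classSum_one_le {a t c : ℝ} (ha : 2 ≤ a) (ht : a ^ ((4 : ℝ) / 5) ≤ t) (hc0 : 0 < c)
    (hc : c ≤ 1 / 4) : 1 ≤ a * Real.exp (-c * Real.log a ^ 6 / Real.log t ^ 5) := by
  obtain ⟨hL, hT, hr⟩ := classSum_ratio ha ht
  have ha0 : 0 < a := by linarith
  have h1 : -Real.log a ≤ -c * Real.log a ^ 6 / Real.log t ^ 5 := by
    have h2 : c * (Real.log a ^ 6 / Real.log t ^ 5) ≤ Real.log a := by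
      calc c * (Real.log a ^ 6 / Real.log t ^ 5) ≤ c * (4 * Real.log a) :=
            mul_le_mul_of_nonneg_left hr hc0.le
        _ = (4 * c) * Real.log a := by ring
        _ ≤ 1 * Real.log a := mul_le_mul_of_nonneg_right (by linarith) hL.le
        _ = Real.log a := one_mul _
    have h3 : -c * Real.log a ^ 6 / Real.log t ^ 5 =
        -(c * (Real.log a ^ 6 / Real.log t ^ 5)) := by ring
    rw [h3]
    linarith
  calc (1 : ℝ) = a * Real.exp (-Real.log a) := by
        rw [Real.exp_neg, Real.exp_log ha0, mul_inv_cancel₀ ha0.ne']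
    _ ≤ _ := mul_le_mul_of_nonneg_left (Real.exp_le_exp.2 h1) ha0.le

/-- One residue class. -/
lemma classSum_fiber (M : ℕ) [NeZero M] {c0 C0 : ℝ} (hc0 : 0 < c0) (hc20 : c0 ≤ 1 / 20)
    (hC0 : 1 ≤ C0)
    (hE : ∀ (a b : ℕ) (β t : ℝ), 2 ≤ a → a < b → b ≤ 2 * a →
      0 ≤ β → β ≤ 1 → (a : ℝ) ^ ((4 : ℝ) / 5) ≤ t →
      ‖∑ n ∈ Ioc a b, (((n : ℝ) + β : ℝ) : ℂ) ^ (-(t * Complex.I))‖ ≤
      C0 * a * Real.exp (-c0 * Real.log a ^ 6 / Real.log t ^ 5))
    (a b : ℕ) (t : ℝ) (hb : b ≤ 2 * a)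
    (ht : (a : ℝ) ^ ((4 : ℝ) / 5) ≤ t) (hbig : (8 * M) ^ 2 ≤ a) (r : ℕ) (hr : r < M) :
    ‖∑ m ∈ Ioc ((a - r) / M) ((b - r) / M),
      (((m : ℝ) + (r : ℝ) / M : ℝ) : ℂ) ^ (-(t * Complex.I))‖ ≤
      (C0 + 3) * a * Real.exp (-(c0 / 64) * Real.log a ^ 6 / Real.log t ^ 5) := by
  have hM : 0 < M := Nat.pos_of_ne_zero (NeZero.ne M)
  have hM1 : (1 : ℝ) ≤ M := by exact_mod_cast hM
  have hMa : 64 * M * M ≤ a := by
    calc 64 * M * M = (8 * M) ^ 2 := by ring
      _ ≤ a := hbig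
  have hMa1 : 64 * M ≤ a := by
    calc 64 * M = 64 * M * 1 := by ring
      _ ≤ 64 * M * M := Nat.mul_le_mul_left _ hM
      _ ≤ a := hMa
  have ha64 : 64 ≤ a := by omega
  have har : r ≤ a := by omega
  set a' := (a - r) / M with ha'
  set b' := (b - r) / M with hb'
  have haR : (64 : ℝ) ≤ a := by exact_mod_cast ha64
  have ha2 : (2 : ℝ) ≤ a := by linarith
  obtain ⟨hL, hT, hratio⟩ := classSum_ratio ha2 ht
  have hone := classSum_one_le (c := c0 / 64) ha2 ht (by positivity) (by linarith)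
  set Ex := Real.exp (-(c0 / 64) * Real.log a ^ 6 / Real.log t ^ 5) with hEx
  have hEx0 : 0 < Ex := Real.exp_pos _
  -- size of a'
  have ha'lt : a - r < (a' + 1) * M := by
    have := Nat.lt_div_mul_add hM (a := a - r)
    rw [add_mul, one_mul]
    exact this
  have ha'le : a' ≤ a := (Nat.div_le_self _ _).trans (Nat.sub_le _ _)
  have hb'le : b' ≤ 2 * a' + 3 := by
    have h1 : b' * M ≤ b - r := Nat.div_mul_le_self _ _
    have h2 : b - r ≤ 2 * (a - r) + r := by omega
    have h3 : b' * M < (2 * a' + 3) * M := by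
      calc b' * M ≤ 2 * (a - r) + r := h1.trans h2
        _ < 2 * ((a' + 1) * M) + M := by omega
        _ = (2 * a' + 3) * M := by ring
    exact (Nat.lt_of_mul_lt_mul_right h3).le
  have hsq : Real.sqrt a ≤ a' := by
    have h0 : (0 : ℝ) ≤ a := by positivity
    have h8 : (8 : ℝ) * M ≤ Real.sqrt a := by
      refine Real.le_sqrt_of_sq_le ?_
      have : (((8 * M) ^ 2 : ℕ) : ℝ) ≤ (a : ℝ) := by exact_mod_cast hbig
      push_cast at this
      exact this
    have h1 : (a : ℝ) - r < (a' + 1) * M := by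
      have : (((a - r : ℕ)) : ℝ) < (((a' + 1) * M : ℕ) : ℝ) := by exact_mod_cast ha'lt
      rw [Nat.cast_sub har] at this
      push_cast at this
      exact this
    have h2 : (r : ℝ) ≤ M := by exact_mod_cast hr.le
    have h3 : (a : ℝ) < (a' + 2) * M := by nlinarith
    have h4 : Real.sqrt a * Real.sqrt a = a := Real.mul_self_sqrt h0
    have hMpos : (0 : ℝ) < M := by linarith
    have h5 : 8 * M * Real.sqrt a ≤ a := by
      calc 8 * M * Real.sqrt a ≤ Real.sqrt a * Real.sqrt a :=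
            mul_le_mul_of_nonneg_right h8 (Real.sqrt_nonneg _)
        _ = a := h4
    have h6 : (8 * Real.sqrt a) * M < (a' + 2) * M := by
      calc (8 * Real.sqrt a) * M = 8 * M * Real.sqrt a := by ring
        _ ≤ a := h5
        _ < _ := h3
    have h7 : 8 * Real.sqrt a < a' + 2 := lt_of_mul_lt_mul_right h6 hMpos.le
    have h9 : (8 : ℝ) ≤ Real.sqrt a := by nlinarith
    linarith
  have ha'2 : 2 ≤ a' := by
    have h9 : (8 : ℝ) ≤ Real.sqrt a := Real.le_sqrt_of_sq_le (by norm_num; linarith)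
    have : (2 : ℝ) ≤ (a' : ℝ) := by linarith
    exact_mod_cast this
  have hloga' : Real.log a / 2 ≤ Real.log a' := by
    rw [← Real.log_sqrt (by positivity)]
    exact Real.log_le_log (Real.sqrt_pos.2 (by linarith)) hsq
  have hta' : (a' : ℝ) ^ ((4 : ℝ) / 5) ≤ t :=
    (Real.rpow_le_rpow (by positivity) (by exact_mod_cast ha'le) (by norm_num)).trans ht
  have hcomp : Real.exp (-c0 * Real.log a' ^ 6 / Real.log t ^ 5) ≤ Ex := by
    refine Real.exp_le_exp.2 ?_
    have h1 : (Real.log a / 2) ^ 6 ≤ Real.log a' ^ 6 := pow_le_pow_left₀ (by positivity) hloga' 6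
    have h2 : Real.log a ^ 6 / 64 / Real.log t ^ 5 ≤ Real.log a' ^ 6 / Real.log t ^ 5 := by
      refine div_le_div_of_nonneg_right ?_ (by positivity)
      calc Real.log a ^ 6 / 64 = (Real.log a / 2) ^ 6 := by ring
        _ ≤ _ := h1
    have h3 := mul_le_mul_of_nonneg_left h2 hc0.le
    have e1 : -c0 * Real.log a' ^ 6 / Real.log t ^ 5 =
        -(c0 * (Real.log a' ^ 6 / Real.log t ^ 5)) := by ring
    have e2 : -(c0 / 64) * Real.log a ^ 6 / Real.log t ^ 5 =
        -(c0 * (Real.log a ^ 6 / 64 / Real.log t ^ 5)) := by ring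
    rw [e1, e2]
    linarith
  -- the term bound
  have hterm : ∀ m : ℕ, 0 < m → ‖(((m : ℝ) + (r : ℝ) / M : ℝ) : ℂ) ^ (-(t * Complex.I))‖ = 1 := by
    intro m hm
    refine classSum_norm_cpow _ ?_ t
    have : (0 : ℝ) < m := by exact_mod_cast hm
    positivity
  have hβ0 : (0 : ℝ) ≤ (r : ℝ) / M := by positivity
  have hβ1 : (r : ℝ) / M ≤ 1 := by
    rw [div_le_one (by linarith)]
    exact_mod_cast hr.le
  have hmain : ‖∑ m ∈ Ioc a' (min b' (2 * a')),
      (((m : ℝ) + (r : ℝ) / M : ℝ) : ℂ) ^ (-(t * Complex.I))‖ ≤ C0 * a * Ex := by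
    by_cases hlt : a' < min b' (2 * a')
    · refine (hE a' (min b' (2 * a')) ((r : ℝ) / M) t ha'2 hlt (min_le_right _ _) hβ0 hβ1 hta').trans ?_
      refine mul_le_mul (mul_le_mul_of_nonneg_left (by exact_mod_cast ha'le) (by linarith)) hcomp
        (Real.exp_pos _).le (by positivity)
    · rw [Finset.Ioc_eq_empty hlt, Finset.sum_empty, norm_zero]
      positivity
  have hrest : ‖∑ m ∈ Ioc (min b' (2 * a')) b',
      (((m : ℝ) + (r : ℝ) / M : ℝ) : ℂ) ^ (-(t * Complex.I))‖ ≤ 3 * a * Ex := by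
    have h1 : ‖∑ m ∈ Ioc (min b' (2 * a')) b',
        (((m : ℝ) + (r : ℝ) / M : ℝ) : ℂ) ^ (-(t * Complex.I))‖ ≤ 3 := by
      refine (norm_sum_le _ _).trans ?_
      rw [Finset.sum_congr rfl fun m hm => hterm m
        (lt_of_le_of_lt (Nat.zero_le _) (Finset.mem_Ioc.1 hm).1)]
      rw [Finset.sum_const, Nat.card_Ioc, nsmul_eq_mul, mul_one]
      have : b' - min b' (2 * a') ≤ 3 := by omega
      exact_mod_cast this
    calc _ ≤ (3 : ℝ) := h1
      _ = 3 * 1 := by ring
      _ ≤ 3 * (a * Ex) := mul_le_mul_of_nonneg_left hone (by norm_num)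
      _ = 3 * a * Ex := by ring
  by_cases hab : a' ≤ b'
  · have hmid1 : a' ≤ min b' (2 * a') := le_min hab (by omega)
    have hmid2 : min b' (2 * a') ≤ b' := min_le_left _ _
    have hsplit : Ioc a' b' = Ioc a' (min b' (2 * a')) ∪ Ioc (min b' (2 * a')) b' :=
      (Finset.Ioc_union_Ioc_eq_Ioc hmid1 hmid2).symm
    have hdis : Disjoint (Ioc a' (min b' (2 * a'))) (Ioc (min b' (2 * a')) b') := by
      rw [Finset.disjoint_left]
      intro m h1 h2
      have := (Finset.mem_Ioc.1 h1).2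
      have := (Finset.mem_Ioc.1 h2).1
      omega
    rw [hsplit, Finset.sum_union hdis]
    refine (norm_add_le _ _).trans ?_
    calc _ ≤ C0 * a * Ex + 3 * a * Ex := add_le_add hmain hrest
      _ = (C0 + 3) * a * Ex := by ring
  · rw [Finset.Ioc_eq_empty (by omega), Finset.sum_empty, norm_zero]
    positivity

theorem class_sum (M : ℕ) [NeZero M] : ∃ c C : ℝ, 0 < c ∧ 1 ≤ C ∧
    ∀ (χ : DirichletCharacter ℂ M) (a b : ℕ) (t : ℝ), 2 ≤ a → a < b → b ≤ 2 * a →
    (a : ℝ) ^ ((4 : ℝ) / 5) ≤ t →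
    ‖∑ n ∈ Ioc a b, χ n * (n : ℂ) ^ (-(t * Complex.I))‖ ≤
      C * a * Real.exp (-c * Real.log a ^ 6 / Real.log t ^ 5) := by
  obtain ⟨c1, C0, hc1, hC0, hE1⟩ := exp_sum
  set c0 := min c1 (1 / 20) with hc0def
  have hc0 : 0 < c0 := lt_min hc1 (by norm_num)
  have hc20 : c0 ≤ 1 / 20 := min_le_right _ _
  have hM : 0 < M := Nat.pos_of_ne_zero (NeZero.ne M)
  have hM1 : (1 : ℝ) ≤ M := by exact_mod_cast hM
  have hE : ∀ (a b : ℕ) (β t : ℝ), 2 ≤ a → a < b → b ≤ 2 * a →
      0 ≤ β → β ≤ 1 → (a : ℝ) ^ ((4 : ℝ) / 5) ≤ t →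
      ‖∑ n ∈ Ioc a b, (((n : ℝ) + β : ℝ) : ℂ) ^ (-(t * Complex.I))‖ ≤
      C0 * a * Real.exp (-c0 * Real.log a ^ 6 / Real.log t ^ 5) := by
    intro a b β t h1 h2 h3 h4 h5 h6
    refine (hE1 a b β t h1 h2 h3 h4 h5 h6).trans ?_
    refine mul_le_mul_of_nonneg_left (Real.exp_le_exp.2 ?_) (by positivity)
    obtain ⟨hL, hT, -⟩ := classSum_ratio (a := (a : ℝ)) (by exact_mod_cast h1) h6
    have h7 : c0 * (Real.log a ^ 6 / Real.log t ^ 5) ≤ c1 * (Real.log a ^ 6 / Real.log t ^ 5) :=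
      mul_le_mul_of_nonneg_right (min_le_left _ _) (by positivity)
    have e1 : -c1 * Real.log a ^ 6 / Real.log t ^ 5 =
        -(c1 * (Real.log a ^ 6 / Real.log t ^ 5)) := by ring
    have e2 : -c0 * Real.log a ^ 6 / Real.log t ^ 5 =
        -(c0 * (Real.log a ^ 6 / Real.log t ^ 5)) := by ring
    rw [e1, e2]
    linarith
  refine ⟨c0 / 64, (8 * M) ^ 2 + M * (C0 + 3), by positivity, ?_, ?_⟩
  · nlinarith
  intro χ a b t ha hab hb ht
  have haR : (2 : ℝ) ≤ a := by exact_mod_cast ha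
  have hone := classSum_one_le (c := c0 / 64) haR ht (by positivity) (by linarith)
  set Ex := Real.exp (-(c0 / 64) * Real.log a ^ 6 / Real.log t ^ 5) with hEx
  have hEx0 : 0 < Ex := Real.exp_pos _
  have ha0 : (0 : ℝ) < a := by linarith
  by_cases hbig : (8 * M) ^ 2 ≤ a
  · -- split into residue classes
    have hfib : ∑ n ∈ Ioc a b, χ n * (n : ℂ) ^ (-(t * Complex.I)) =
        ∑ r ∈ range M, ∑ n ∈ (Ioc a b).filter (fun n => n % M = r),
          χ n * (n : ℂ) ^ (-(t * Complex.I)) :=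
      (Finset.sum_fiberwise_of_maps_to (fun n _ => Finset.mem_range.2 (Nat.mod_lt _ hM)) _).symm
    rw [hfib]
    refine (norm_sum_le _ _).trans ?_
    have hclass : ∀ r ∈ range M, ‖∑ n ∈ (Ioc a b).filter (fun n => n % M = r),
        χ n * (n : ℂ) ^ (-(t * Complex.I))‖ ≤ (C0 + 3) * a * Ex := by
      intro r hr
      have hr' : r < M := Finset.mem_range.1 hr
      have har : r ≤ a := by nlinarith
      have hsum : ∑ n ∈ (Ioc a b).filter (fun n => n % M = r),
          χ n * (n : ℂ) ^ (-(t * Complex.I)) =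
          (χ r * (M : ℂ) ^ (-(t * Complex.I))) * ∑ m ∈ Ioc ((a - r) / M) ((b - r) / M),
          (((m : ℝ) + (r : ℝ) / M : ℝ) : ℂ) ^ (-(t * Complex.I)) := by
        rw [Finset.mul_sum]
        refine Finset.sum_nbij' (fun n => n / M) (fun m => M * m + r) ?_ ?_ ?_ ?_ ?_
        · intro n hn
          obtain ⟨hn1, hn2⟩ := Finset.mem_filter.1 hn
          obtain ⟨hn3, hn4⟩ := Finset.mem_Ioc.1 hn1
          have hdm := Nat.div_add_mod n M
          rw [hn2] at hdm
          rw [Finset.mem_Ioc]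
          constructor
          · rw [Nat.div_lt_iff_lt_mul hM, Nat.mul_comm]
            omega
          · rw [Nat.le_div_iff_mul_le hM, Nat.mul_comm]
            omega
        · intro m hm
          obtain ⟨hm1, hm2⟩ := Finset.mem_Ioc.1 hm
          rw [Nat.div_lt_iff_lt_mul hM, Nat.mul_comm] at hm1
          rw [Nat.le_div_iff_mul_le hM, Nat.mul_comm] at hm2
          rw [Finset.mem_filter, Finset.mem_Ioc]
          refine ⟨⟨by omega, by omega⟩, ?_⟩
          rw [Nat.mul_add_mod, Nat.mod_eq_of_lt hr']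
        · intro n hn
          obtain ⟨hn1, hn2⟩ := Finset.mem_filter.1 hn
          have hdm := Nat.div_add_mod n M
          rw [hn2] at hdm
          exact hdm
        · intro m _
          change (M * m + r) / M = m
          rw [Nat.mul_add_div hM, Nat.div_eq_of_lt hr', add_zero]
        · intro n hn
          obtain ⟨hn1, hn2⟩ := Finset.mem_filter.1 hn
          have hdm := Nat.div_add_mod n M
          rw [hn2] at hdm
          have hMne : (M : ℝ) ≠ 0 := by positivity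
          have h1 : χ (n : ZMod M) = χ (r : ZMod M) := by
            congr 1
            rw [← hdm]
            push_cast
            rw [ZMod.natCast_self]
            ring
          have h2 : (n : ℂ) = ((M : ℝ) : ℂ) * ((((n / M : ℕ) : ℝ) + (r : ℝ) / M : ℝ) : ℂ) := by
            rw [← Complex.ofReal_mul]
            have h3 : (n : ℝ) = (M : ℝ) * (((n / M : ℕ) : ℝ) + (r : ℝ) / M) := by
              rw [mul_add, mul_div_cancel₀ _ hMne]
              exact_mod_cast hdm.symm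
            rw [← h3]
            simp
          rw [h1, h2, Complex.mul_cpow_ofReal_nonneg (by positivity) (by positivity)]
          rw [Complex.ofReal_natCast]
          ring
      rw [hsum, norm_mul]
      have hn1 : ‖χ r * (M : ℂ) ^ (-(t * Complex.I))‖ ≤ 1 := by
        rw [norm_mul]
        have h1 : ‖(M : ℂ) ^ (-(t * Complex.I))‖ = 1 := by
          have := classSum_norm_cpow (M : ℝ) (by positivity) t
          simpa using this
        rw [h1, mul_one]
        exact DirichletCharacter.norm_le_one χ _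
      have hn2 := classSum_fiber M hc0 hc20 hC0 hE a b t hb ht hbig r hr'
      calc _ ≤ 1 * ((C0 + 3) * a * Ex) :=
            mul_le_mul hn1 hn2 (norm_nonneg _) (by norm_num)
        _ = _ := one_mul _
    refine (Finset.sum_le_sum hclass).trans ?_
    rw [Finset.sum_const, Finset.card_range, nsmul_eq_mul]
    have h0 : 0 ≤ (8 * (M : ℝ)) ^ 2 * a * Ex := by positivity
    calc (M : ℝ) * ((C0 + 3) * a * Ex) ≤ (8 * (M : ℝ)) ^ 2 * a * Ex + M * ((C0 + 3) * a * Ex) := by
          linarith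
      _ = ((8 * (M : ℝ)) ^ 2 + M * (C0 + 3)) * a * Ex := by ring
  · -- trivial bound
    have hsmall : (a : ℝ) ≤ (8 * (M : ℝ)) ^ 2 := by
      have : a ≤ (8 * M) ^ 2 := (not_le.1 hbig).le
      exact_mod_cast this
    have h1 : ‖∑ n ∈ Ioc a b, χ n * (n : ℂ) ^ (-(t * Complex.I))‖ ≤ a := by
      refine (norm_sum_le _ _).trans ?_
      have h2 : ∀ n ∈ Ioc a b, ‖χ n * (n : ℂ) ^ (-(t * Complex.I))‖ ≤ 1 := by
        intro n hn
        have hn0 : 0 < n := by
          have := (Finset.mem_Ioc.1 hn).1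
          omega
        rw [norm_mul]
        have h3 : ‖(n : ℂ) ^ (-(t * Complex.I))‖ = 1 := by
          have := classSum_norm_cpow (n : ℝ) (by exact_mod_cast hn0) t
          simpa using this
        rw [h3, mul_one]
        exact DirichletCharacter.norm_le_one χ _
      refine (Finset.sum_le_sum h2).trans ?_
      rw [Finset.sum_const, Nat.card_Ioc, nsmul_eq_mul, mul_one]
      have : b - a ≤ a := by omega
      exact_mod_cast this
    have h4 : (a : ℝ) ≤ (8 * (M : ℝ)) ^ 2 * (a * Ex) := by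
      calc (a : ℝ) ≤ (8 * (M : ℝ)) ^ 2 := hsmall
        _ = (8 * (M : ℝ)) ^ 2 * 1 := by ring
        _ ≤ (8 * (M : ℝ)) ^ 2 * (a * Ex) := mul_le_mul_of_nonneg_left hone (by positivity)
    have h5 : 0 ≤ (M : ℝ) * (C0 + 3) * a * Ex := by positivity
    calc _ ≤ (a : ℝ) := h1
      _ ≤ (8 * (M : ℝ)) ^ 2 * (a * Ex) + M * (C0 + 3) * a * Ex := by linarith
      _ = ((8 * (M : ℝ)) ^ 2 + M * (C0 + 3)) * a * Ex := by ring

end VKC
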