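import Pool.Agent.VKZ.PrimeG

/-!
# VKC: the zero free region of Vinogradov and Korobov for the L-functions of a fixed modulus

Character version of `Pool.Agent.VKZ`. Main results: `VKC.class_sum` (sums of `χ(n) n^(-it)`), `VKC.region`
(`χ ≠ 1`: zero free region `σ ≥ 1 - c / (log (|t| + 3))^(19/20)` with bounds for the logarithmic derivative and for
`1/L`), `VKC.prime_gauss`, `VKC.mu_gauss` (sums of `Λ(n) χ(n) n^(-1-it)` and `μ(n) χ(n) n^(-1-it)` with a Gaussian
weight are smaller than any power of the logarithm, for `t` up to any power of the length). The modulus `M` is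
fixed and the constants may depend on it.
-/

namespace VKC

open Finset

/-- The coefficients of the Taylor polynomial at a real point `x`. -/
noncomputable def alf (t x : ℝ) (j : ℕ) : ℝ := (-1) ^ j * t / (2 * Real.pi * j * x ^ j)

/-- The bilinear sum at a real point `x`. -/
noncomputable def U (t : ℝ) (k N : ℕ) (x : ℝ) : ℂ :=
  ∑ a ∈ Icc 1 N, ∑ b ∈ Icc 1 N, VKZ.e (∑ j ∈ Icc 1 k, alf t x j * (a : ℝ) ^ j * (b : ℝ) ^ j)

/-- Gaussian sum with coefficients `a(n) χ(n)`. -/
noncomputable def gc {M : ℕ} (χ : DirichletCharacter ℂ M) (a : ℕ → ℝ) (w τ : ℝ) : ℂ :=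
  ∑' n : ℕ, ((a n : ℂ) * χ n) * (n : ℂ) ^ (-(1 + τ * Complex.I)) * Real.exp (-(Real.log n - w) ^ 2 / 2)

end VKC
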