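import Pool.Agent.VKC.UBound

/-!
# VKC.ExpB: the sums of `(n + β)^(-it)`

PROOF. Copy `Pool/Agent/VKZ/Shift.lean` (`shift_bound`) and `Pool/Agent/VKZ/ExpS.lean` (`exp_sum`) with `n` replaced by
`x = n + β` in the base of the power, `0 ≤ β ≤ 1`: `g(n) = (n+β)^(-it)`, `g(n + xy) = g(n) exp(-it log(1+z))`, `z = xy/(n+β)`,
and `U t k M n` replaced by `VKC.U t k M (n + β)`. `VKC.U_bound` needs `a ≤ n + β ≤ 2a`; this holds for
`a < n ≤ 2a - 1`. The term `n = 2a` (if `b = 2a`) is split off at the start, its norm is `1`, and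
`1 ≤ a exp(-(log a)/5) ≤ a exp(-c (log a)^6/(log t)^5)` for `c ≤ 1/20` (see `hQ4`, `hcQ` in `ExpS.lean`), so enlarge `C` by `1`.
-/

namespace VKC

open Finset

private theorem ExpB_exp (A B : ℝ) :
    ‖Complex.exp (A * Complex.I) - Complex.exp (B * Complex.I)‖ ≤ |A - B| := by
  have h1 : Complex.exp (A * Complex.I) - Complex.exp (B * Complex.I) =
      Complex.exp (B * Complex.I) * (Complex.exp (Complex.I * ((A - B : ℝ) : ℂ)) - 1) := by
    rw [mul_sub, ← Complex.exp_add, mul_one]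
    congr 2
    push_cast
    ring
  rw [h1, norm_mul, Complex.norm_exp_ofReal_mul_I, one_mul]
  exact Real.norm_exp_I_mul_ofReal_sub_one_le

private theorem ExpB_cpow (t : ℝ) {v : ℝ} (hv : 0 < v) :
    (v : ℂ) ^ (-(t * Complex.I)) = Complex.exp ((-(t * Real.log v) : ℝ) * Complex.I) := by
  rw [Complex.cpow_def_of_ne_zero (by exact_mod_cast hv.ne'), ← Complex.ofReal_log hv.le]
  congr 1
  push_cast
  ring

private theorem ExpB_norm (t : ℝ) {v : ℝ} (hv : 0 < v) : ‖(v : ℂ) ^ (-(t * Complex.I))‖ = 1 := by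
  rw [ExpB_cpow t hv, Complex.norm_exp_ofReal_mul_I]

private theorem ExpB_tele (g : ℕ → ℂ) (a : ℕ) {b : ℕ} (hab : a ≤ b) :
    ∑ n ∈ Ioc a b, (g (n + 1) - g n) = g (b + 1) - g (a + 1) := by
  induction b, hab using Nat.le_induction with
  | base => simp
  | succ b hb ih =>
    rw [Finset.sum_Ioc_succ_top hb, ih]
    ring

private theorem ExpB_h (g : ℕ → ℂ) (hg : ∀ n, 0 < n → ‖g n‖ ≤ 1) (a : ℕ) {b : ℕ} (hab : a ≤ b)
    (h : ℕ) : ‖∑ n ∈ Ioc a b, g (n + h) - ∑ n ∈ Ioc a b, g n‖ ≤ 2 * h := by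
  induction h with
  | zero => simp
  | succ h ih =>
    have h1 : ∑ n ∈ Ioc a b, g (n + (h + 1)) - ∑ n ∈ Ioc a b, g (n + h) =
        g (b + 1 + h) - g (a + 1 + h) := by
      rw [← Finset.sum_sub_distrib]
      have := ExpB_tele (fun n => g (n + h)) a hab
      rw [← this]
      apply Finset.sum_congr rfl
      intro n _
      congr 2
      ring
    have h2 : ∑ n ∈ Ioc a b, g (n + (h + 1)) - ∑ n ∈ Ioc a b, g n =
        (g (b + 1 + h) - g (a + 1 + h)) + (∑ n ∈ Ioc a b, g (n + h) - ∑ n ∈ Ioc a b, g n) := by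
      rw [← h1]
      ring
    rw [h2]
    have h3 := hg (b + 1 + h) (by omega)
    have h4 := hg (a + 1 + h) (by omega)
    calc _ ≤ ‖g (b + 1 + h) - g (a + 1 + h)‖ +
          ‖∑ n ∈ Ioc a b, g (n + h) - ∑ n ∈ Ioc a b, g n‖ := norm_add_le _ _
      _ ≤ (‖g (b + 1 + h)‖ + ‖g (a + 1 + h)‖) + 2 * h := add_le_add (norm_sub_le _ _) ih
      _ ≤ _ := by push_cast; linarith

private theorem ExpB_log {z : ℝ} (hz : 0 ≤ z) (hz2 : z ≤ 1 / 2) (k : ℕ) :
    |∑ j ∈ Icc 1 k, (-1 : ℝ) ^ j * z ^ j / j + Real.log (1 + z)| ≤ 2 * z ^ (k + 1) := by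
  have h := Real.abs_log_sub_add_sum_range_le (x := -z) (by rw [abs_neg, abs_of_nonneg hz]; linarith) k
  rw [abs_neg, abs_of_nonneg hz, sub_neg_eq_add] at h
  have h1 : ∑ j ∈ Icc 1 k, (-1 : ℝ) ^ j * z ^ j / j = ∑ i ∈ range k, (-z) ^ (i + 1) / (i + 1) := by
    apply Finset.sum_nbij' (fun j => j - 1) (fun j => j + 1)
    · intro j hj
      rw [Finset.mem_Icc] at hj
      rw [Finset.mem_range]
      omega
    · intro j hj
      rw [Finset.mem_range] at hj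
      rw [Finset.mem_Icc]
      omega
    · intro j hj
      rw [Finset.mem_Icc] at hj
      omega
    · intro j hj
      omega
    · intro j hj
      rw [Finset.mem_Icc] at hj
      obtain ⟨i, rfl⟩ : ∃ i : ℕ, j = i + 1 := ⟨j - 1, by omega⟩
      simp only [Nat.add_sub_cancel]
      rw [neg_pow z]
      push_cast
      ring
  rw [h1]
  refine h.trans ?_
  rw [div_le_iff₀ (by linarith)]
  have h2 : 0 ≤ z ^ (k + 1) := by positivity
  nlinarith

private theorem ExpB_term {t : ℝ} (ht : 0 ≤ t) (k : ℕ) {v : ℝ} {x y : ℕ} (hn : 0 < v) (c : ℝ)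
    (hxy : ((x : ℝ) * y) / v ≤ c) (hc : c ≤ 1 / 2) :
    ‖((v + x * y : ℝ) : ℂ) ^ (-(t * Complex.I)) - (v : ℂ) ^ (-(t * Complex.I)) *
      VKZ.e (∑ j ∈ Icc 1 k, alf t v j * (x : ℝ) ^ j * (y : ℝ) ^ j)‖ ≤ 2 * t * c ^ (k + 1) := by
  obtain ⟨z, hz⟩ : ∃ z : ℝ, z = ((x : ℝ) * y) / v := ⟨_, rfl⟩
  have hz0 : 0 ≤ z := by rw [hz]; positivity
  have h1 : VKZ.e (∑ j ∈ Icc 1 k, alf t v j * (x : ℝ) ^ j * (y : ℝ) ^ j) =
      Complex.exp ((t * ∑ j ∈ Icc 1 k, (-1 : ℝ) ^ j * z ^ j / j : ℝ) * Complex.I) := by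
    unfold VKZ.e
    congr 1
    have h2 : 2 * Real.pi * (∑ j ∈ Icc 1 k, alf t v j * (x : ℝ) ^ j * (y : ℝ) ^ j) =
        t * ∑ j ∈ Icc 1 k, (-1 : ℝ) ^ j * z ^ j / j := by
      rw [Finset.mul_sum, Finset.mul_sum]
      apply Finset.sum_congr rfl
      intro j hj
      rw [Finset.mem_Icc] at hj
      have hj' : (0 : ℝ) < j := by exact_mod_cast hj.1
      have hpi := Real.pi_pos
      unfold alf
      rw [hz, div_pow, mul_pow]
      field_simp
    rw [← h2]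
    push_cast
    ring
  have h3 : ((v + x * y : ℝ) : ℂ) ^ (-(t * Complex.I)) =
      (v : ℂ) ^ (-(t * Complex.I)) * Complex.exp ((-(t * Real.log (1 + z)) : ℝ) * Complex.I) := by
    rw [ExpB_cpow t (by positivity : 0 < v + x * y), ExpB_cpow t hn, ← Complex.exp_add]
    congr 1
    have h4 : Real.log (v + x * y) = Real.log v + Real.log (1 + z) := by
      rw [← Real.log_mul (by positivity) (by positivity)]
      congr 1
      rw [hz]
      field_simp
    rw [h4]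
    push_cast
    ring
  rw [h3, h1, ← mul_sub, norm_mul, ExpB_norm t hn, one_mul]
  refine (ExpB_exp _ _).trans ?_
  have h5 := ExpB_log hz0 (by linarith : z ≤ 1 / 2) k
  have h6 : -(t * Real.log (1 + z)) - t * ∑ j ∈ Icc 1 k, (-1 : ℝ) ^ j * z ^ j / j =
      -(t * (∑ j ∈ Icc 1 k, (-1 : ℝ) ^ j * z ^ j / j + Real.log (1 + z))) := by ring
  rw [h6, abs_neg, abs_mul, abs_of_nonneg ht]
  have h7 : z ^ (k + 1) ≤ c ^ (k + 1) := pow_le_pow_left₀ hz0 (by linarith) _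
  nlinarith

private theorem ExpB_shift {a b M k : ℕ} {t β : ℝ} (hβ : 0 ≤ β) (hab : a < b) (hM : 1 ≤ M) (hMa : 2 * M ^ 2 ≤ a)
    (ht : 0 ≤ t) :
    ‖∑ n ∈ Ioc a b, (((n : ℝ) + β : ℝ) : ℂ) ^ (-(t * Complex.I))‖ ≤
      (1 / (M : ℝ) ^ 2) * ∑ n ∈ Ioc a b, ‖U t k M ((n : ℝ) + β)‖ + 2 * (M : ℝ) ^ 2 +
        ((b : ℝ) - a) * (2 * t * ((M : ℝ) ^ 2 / a) ^ (k + 1)) := by
  have hM' : (0 : ℝ) < M := by exact_mod_cast hM
  have ha : 0 < a := by nlinarith [Nat.pos_of_ne_zero (by positivity : M ^ 2 ≠ 0)]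
  have ha' : (0 : ℝ) < a := by exact_mod_cast ha
  have hMa' : 2 * (M : ℝ) ^ 2 ≤ a := by exact_mod_cast hMa
  obtain ⟨c, hc⟩ : ∃ c : ℝ, c = (M : ℝ) ^ 2 / a := ⟨_, rfl⟩
  have hc0 : 0 ≤ c := by rw [hc]; positivity
  have hc2 : c ≤ 1 / 2 := by
    rw [hc, div_le_iff₀ ha']
    linarith
  obtain ⟨g, hg⟩ : ∃ g : ℕ → ℂ, g = fun (n : ℕ) => (((n : ℝ) + β : ℝ) : ℂ) ^ (-(t * Complex.I)) := ⟨_, rfl⟩
  have hg1 : ∀ n, 0 < n → ‖g n‖ ≤ 1 := by
    intro n hn
    rw [hg]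
    have hn' : (0 : ℝ) < n := by exact_mod_cast hn
    exact (ExpB_norm t (by positivity)).le
  have hgs : ∑ n ∈ Ioc a b, (((n : ℝ) + β : ℝ) : ℂ) ^ (-(t * Complex.I)) = ∑ n ∈ Ioc a b, g n := by rw [hg]
  rw [hgs, ← hc]
  obtain ⟨S, hS⟩ : ∃ S : ℂ, S = ∑ n ∈ Ioc a b, g n := ⟨_, rfl⟩
  rw [← hS]
  -- the average
  have h1 : ‖∑ x ∈ Icc 1 M, ∑ y ∈ Icc 1 M, ∑ n ∈ Ioc a b, g (n + x * y) - (M : ℂ) ^ 2 * S‖ ≤
      (M : ℝ) ^ 2 * (2 * (M : ℝ) ^ 2) := by
    have e1 : (M : ℂ) ^ 2 * S = ∑ x ∈ Icc 1 M, ∑ y ∈ Icc 1 M, S := by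
      rw [Finset.sum_const, Finset.sum_const, Nat.card_Icc, Nat.add_sub_cancel, nsmul_eq_mul,
        nsmul_eq_mul]
      ring
    have e2 : (M : ℝ) ^ 2 * (2 * (M : ℝ) ^ 2) =
        ∑ x ∈ Icc 1 M, ∑ y ∈ Icc 1 M, 2 * (M : ℝ) ^ 2 := by
      rw [Finset.sum_const, Finset.sum_const, Nat.card_Icc, Nat.add_sub_cancel, nsmul_eq_mul,
        nsmul_eq_mul]
      ring
    rw [e1, e2, ← Finset.sum_sub_distrib]
    refine (norm_sum_le _ _).trans (Finset.sum_le_sum fun x hx => ?_)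
    rw [← Finset.sum_sub_distrib]
    refine (norm_sum_le _ _).trans (Finset.sum_le_sum fun y hy => ?_)
    rw [Finset.mem_Icc] at hx hy
    have h2 := ExpB_h g hg1 a hab.le (x * y)
    rw [← hS] at h2
    refine h2.trans ?_
    have h3 : ((x * y : ℕ) : ℝ) ≤ (M : ℝ) ^ 2 := by
      have : x * y ≤ M ^ 2 := by
        rw [sq]
        exact Nat.mul_le_mul hx.2 hy.2
      exact_mod_cast this
    linarith
  -- the terms
  have h2 : ‖∑ x ∈ Icc 1 M, ∑ y ∈ Icc 1 M, ∑ n ∈ Ioc a b, g (n + x * y)‖ ≤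
      ∑ n ∈ Ioc a b, ‖U t k M ((n : ℝ) + β)‖ + ((b : ℝ) - a) * ((M : ℝ) ^ 2 * (2 * t * c ^ (k + 1))) := by
    have e1 : ∑ x ∈ Icc 1 M, ∑ y ∈ Icc 1 M, ∑ n ∈ Ioc a b, g (n + x * y) =
        ∑ n ∈ Ioc a b, ∑ x ∈ Icc 1 M, ∑ y ∈ Icc 1 M, g (n + x * y) := by
      symm
      rw [Finset.sum_comm]
      apply Finset.sum_congr rfl
      intro x _
      rw [Finset.sum_comm]
    rw [e1]
    have e2 : ((b : ℝ) - a) * ((M : ℝ) ^ 2 * (2 * t * c ^ (k + 1))) =
        ∑ n ∈ Ioc a b, (M : ℝ) ^ 2 * (2 * t * c ^ (k + 1)) := by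
      rw [Finset.sum_const, Nat.card_Ioc, nsmul_eq_mul, Nat.cast_sub hab.le]
    rw [e2, ← Finset.sum_add_distrib]
    refine (norm_sum_le _ _).trans (Finset.sum_le_sum fun n hn => ?_)
    rw [Finset.mem_Ioc] at hn
    have hn0 : 0 < n := by omega
    have hn' : (a : ℝ) ≤ n := by exact_mod_cast hn.1.le
    have h3 : ‖∑ x ∈ Icc 1 M, ∑ y ∈ Icc 1 M, g (n + x * y) - g n * U t k M ((n : ℝ) + β)‖ ≤
        (M : ℝ) ^ 2 * (2 * t * c ^ (k + 1)) := by
      have e3 : (M : ℝ) ^ 2 * (2 * t * c ^ (k + 1)) =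
          ∑ x ∈ Icc 1 M, ∑ y ∈ Icc 1 M, 2 * t * c ^ (k + 1) := by
        rw [Finset.sum_const, Finset.sum_const, Nat.card_Icc, Nat.add_sub_cancel, nsmul_eq_mul,
          nsmul_eq_mul]
        ring
      unfold U
      rw [e3, Finset.mul_sum, ← Finset.sum_sub_distrib]
      refine (norm_sum_le _ _).trans (Finset.sum_le_sum fun x hx => ?_)
      rw [Finset.mul_sum, ← Finset.sum_sub_distrib]
      refine (norm_sum_le _ _).trans (Finset.sum_le_sum fun y hy => ?_)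
      rw [Finset.mem_Icc] at hx hy
      have hn'' : (0 : ℝ) < n := by exact_mod_cast hn0
      have hg2 : g (n + x * y) = ((((n : ℝ) + β) + x * y : ℝ) : ℂ) ^ (-(t * Complex.I)) := by
        rw [hg]
        have e9 : (((n + x * y : ℕ) : ℝ) + β) = ((n : ℝ) + β) + x * y := by
          push_cast
          ring
        simp only [e9]
      have hg3 : g n = (((n : ℝ) + β : ℝ) : ℂ) ^ (-(t * Complex.I)) := by rw [hg]
      rw [hg2, hg3]
      apply ExpB_term ht k (by positivity) c _ hc2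
      rw [hc]
      have h4 : (x : ℝ) * y ≤ (M : ℝ) ^ 2 := by
        have : x * y ≤ M ^ 2 := by
          rw [sq]
          exact Nat.mul_le_mul hx.2 hy.2
        exact_mod_cast this
      have hn3 : (0 : ℝ) < (n : ℝ) + β := by positivity
      rw [div_le_div_iff₀ hn3 ha']
      have h5 : (0 : ℝ) ≤ (x : ℝ) * y := by positivity
      nlinarith
    have h4 : ‖g n * U t k M ((n : ℝ) + β)‖ ≤ ‖U t k M ((n : ℝ) + β)‖ := by
      rw [norm_mul]
      have := hg1 n hn0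
      have h5 := norm_nonneg (U t k M ((n : ℝ) + β))
      nlinarith
    have h5 : ∑ x ∈ Icc 1 M, ∑ y ∈ Icc 1 M, g (n + x * y) =
        g n * U t k M ((n : ℝ) + β) + (∑ x ∈ Icc 1 M, ∑ y ∈ Icc 1 M, g (n + x * y) - g n * U t k M ((n : ℝ) + β)) := by
      ring
    rw [h5]
    refine (norm_add_le _ _).trans ?_
    linarith
  have h3 : (M : ℝ) ^ 2 * ‖S‖ ≤ ∑ n ∈ Ioc a b, ‖U t k M ((n : ℝ) + β)‖ +
      ((b : ℝ) - a) * ((M : ℝ) ^ 2 * (2 * t * c ^ (k + 1))) + (M : ℝ) ^ 2 * (2 * (M : ℝ) ^ 2) := by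
    have e1 : (M : ℝ) ^ 2 * ‖S‖ = ‖(M : ℂ) ^ 2 * S‖ := by
      rw [norm_mul, norm_pow, Complex.norm_natCast]
    rw [e1]
    have e2 : (M : ℂ) ^ 2 * S = ∑ x ∈ Icc 1 M, ∑ y ∈ Icc 1 M, ∑ n ∈ Ioc a b, g (n + x * y) -
        (∑ x ∈ Icc 1 M, ∑ y ∈ Icc 1 M, ∑ n ∈ Ioc a b, g (n + x * y) - (M : ℂ) ^ 2 * S) := by ring
    rw [e2]
    refine (norm_sub_le _ _).trans ?_
    linarith
  have hM2 : (0 : ℝ) < (M : ℝ) ^ 2 := by positivity
  have h4 : ‖S‖ ≤ (∑ n ∈ Ioc a b, ‖U t k M ((n : ℝ) + β)‖ +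
      ((b : ℝ) - a) * ((M : ℝ) ^ 2 * (2 * t * c ^ (k + 1))) +
        (M : ℝ) ^ 2 * (2 * (M : ℝ) ^ 2)) / (M : ℝ) ^ 2 := by
    rw [le_div_iff₀ hM2]
    linarith
  refine h4.trans (le_of_eq ?_)
  field_simp
  ring

private theorem ExpB_main : ∃ c C : ℝ, 0 < c ∧ c ≤ 1 / 20 ∧ 1 ≤ C ∧ ∀ (a b : ℕ) (β t : ℝ), 2 ≤ a → a < b →
    b < 2 * a → 0 ≤ β → β ≤ 1 → (a : ℝ) ^ ((4 : ℝ) / 5) ≤ t →
    ‖∑ n ∈ Ioc a b, (((n : ℝ) + β : ℝ) : ℂ) ^ (-(t * Complex.I))‖ ≤
      C * a * Real.exp (-c * Real.log a ^ 6 / Real.log t ^ 5) := by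
  obtain ⟨c0, C0, N1, hc0, hC0, hU⟩ := U_bound
  refine ⟨min c0 (1 / 20), max (C0 + 4) ((max N1 32 : ℕ) : ℝ), by positivity, min_le_right _ _,
    le_trans (by linarith) (le_max_left _ _), ?_⟩
  intro a b β t ha hab hb hβ hβ1 ht
  set c : ℝ := min c0 (1 / 20) with hc
  set C : ℝ := max (C0 + 4) ((max N1 32 : ℕ) : ℝ) with hC
  have hc0' : c ≤ c0 := min_le_left _ _
  have hc20 : c ≤ 1 / 20 := min_le_right _ _
  have hcpos : 0 < c := by rw [hc]; positivity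
  have haR : (2 : ℝ) ≤ a := by exact_mod_cast ha
  have ha0 : (0 : ℝ) < a := by linarith
  set l : ℝ := Real.log a with hl
  have hl0 : 0 < l := Real.log_pos (by linarith)
  have hel : Real.exp l = a := Real.exp_log ha0
  have hta : 0 < t := lt_of_lt_of_le (Real.rpow_pos_of_pos ha0 _) ht
  set τ : ℝ := Real.log t with hτ
  have heτ : Real.exp τ = t := Real.exp_log hta
  have hτl : 4 / 5 * l ≤ τ := by
    have h1 := Real.log_le_log (Real.rpow_pos_of_pos ha0 ((4 : ℝ) / 5)) ht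
    rwa [Real.log_rpow ha0] at h1
  have hτ0 : 0 < τ := by linarith
  have hpow : ∀ x : ℝ, (a : ℝ) ^ x = Real.exp (l * x) := fun x => Real.rpow_def_of_pos ha0 x
  -- the quantity in the exponent
  set Q : ℝ := l ^ 6 / τ ^ 5 with hQ
  have hQ0 : 0 ≤ Q := by positivity
  have hQ4 : Q ≤ 4 * l := by
    rw [hQ, div_le_iff₀ (by positivity)]
    have h1 : (4 / 5 * l) ^ 5 ≤ τ ^ 5 := pow_le_pow_left₀ (by positivity) hτl 5
    have h2 : 4 * l * (4 / 5 * l) ^ 5 ≤ 4 * l * τ ^ 5 :=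
      mul_le_mul_of_nonneg_left h1 (by positivity)
    have h3 : l ^ 6 ≤ 4 * l * (4 / 5 * l) ^ 5 := by
      have : 4 * l * (4 / 5 * l) ^ 5 = 4096 / 3125 * l ^ 6 := by ring
      rw [this]
      have := pow_pos hl0 6
      linarith
    linarith
  have hcQ : c * Q ≤ l / 5 := by
    calc c * Q ≤ 1 / 20 * Q := mul_le_mul_of_nonneg_right hc20 hQ0
      _ ≤ 1 / 20 * (4 * l) := mul_le_mul_of_nonneg_left hQ4 (by norm_num)
      _ = l / 5 := by ring
  have hform : ∀ d : ℝ, -d * l ^ 6 / τ ^ 5 = -(d * Q) := by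
    intro d
    rw [hQ]
    ring
  rw [hform]
  have hba : (b : ℝ) - a ≤ a := by
    have : (b : ℝ) ≤ 2 * a := by exact_mod_cast hb.le
    linarith
  have hba0 : 0 ≤ (b : ℝ) - a := by
    have : (a : ℝ) ≤ b := by exact_mod_cast hab.le
    linarith
  have hcard : ((Ioc a b).card : ℝ) = (b : ℝ) - a := by
    rw [Nat.card_Ioc, Nat.cast_sub hab.le]
  have hE0 : 0 < Real.exp (-(c * Q)) := Real.exp_pos _
  have hN : (((max N1 32 : ℕ) : ℕ) : ℝ) ≤ C := le_max_right _ _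
  have hC4 : C0 + 4 ≤ C := le_max_left _ _
  by_cases hbig : a < max N1 32
  · -- trivial bound
    have h1 : ‖∑ n ∈ Ioc a b, (((n : ℝ) + β : ℝ) : ℂ) ^ (-(t * Complex.I))‖ ≤ a := by
      calc ‖∑ n ∈ Ioc a b, (((n : ℝ) + β : ℝ) : ℂ) ^ (-(t * Complex.I))‖
          ≤ ∑ n ∈ Ioc a b, ‖(((n : ℝ) + β : ℝ) : ℂ) ^ (-(t * Complex.I))‖ := norm_sum_le _ _
        _ = ∑ n ∈ Ioc a b, (1 : ℝ) := by
            refine Finset.sum_congr rfl fun n hn => ExpB_norm t ?_
            have h1 := (Finset.mem_Ioc.1 hn).1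
            have h2 : (0 : ℝ) < n := by exact_mod_cast (by omega : 0 < n)
            positivity
        _ = (b : ℝ) - a := by rw [Finset.sum_const, nsmul_eq_mul, mul_one, hcard]
        _ ≤ a := hba
    refine le_trans h1 ?_
    have h2 : Real.exp (c * Q) ≤ C := by
      calc Real.exp (c * Q) ≤ Real.exp l := Real.exp_le_exp.2 (by linarith)
        _ = a := hel
        _ ≤ ((max N1 32 : ℕ) : ℝ) := by exact_mod_cast hbig.le
        _ ≤ C := hN
    have h3 : 1 ≤ C * Real.exp (-(c * Q)) := by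
      calc (1 : ℝ) = Real.exp (c * Q) * Real.exp (-(c * Q)) := by
            rw [← Real.exp_add]; simp
        _ ≤ C * Real.exp (-(c * Q)) := mul_le_mul_of_nonneg_right h2 hE0.le
    calc (a : ℝ) = a * 1 := (mul_one _).symm
      _ ≤ a * (C * Real.exp (-(c * Q))) := mul_le_mul_of_nonneg_left h3 ha0.le
      _ = C * a * Real.exp (-(c * Q)) := by ring
  · rw [not_lt] at hbig
    have haN1 : N1 ≤ a := le_trans (le_max_left _ _) hbig
    have ha32 : 32 ≤ a := le_trans (le_max_right _ _) hbig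
    set k : ℕ := ⌈5 * (Real.log t / Real.log a)⌉₊ + 5 with hk
    set M : ℕ := ⌊(a : ℝ) ^ ((2 : ℝ) / 5)⌋₊ with hM
    have hMle : (M : ℝ) ≤ Real.exp (l * (2 / 5)) := by
      rw [← hpow]
      exact Nat.floor_le (Real.rpow_nonneg ha0.le _)
    have hM1 : 1 ≤ M := by
      rw [hM]
      refine Nat.le_floor ?_
      rw [Nat.cast_one]
      exact Real.one_le_rpow (by linarith) (by norm_num)
    have hM0 : (0 : ℝ) < M := by exact_mod_cast hM1
    have hM2 : (M : ℝ) ^ 2 ≤ Real.exp (l * (4 / 5)) := by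
      calc (M : ℝ) ^ 2 ≤ (Real.exp (l * (2 / 5))) ^ 2 := pow_le_pow_left₀ hM0.le hMle 2
        _ = Real.exp (l * (4 / 5)) := by
            rw [← Real.exp_nat_mul]
            congr 1
            push_cast
            ring
    -- log a ≥ 5 log 2
    have hl2 : 5 * Real.log 2 ≤ l := by
      have h1 : (32 : ℝ) ≤ a := by exact_mod_cast ha32
      have h2 := Real.log_le_log (by norm_num) h1
      have h3 : Real.log 32 = 5 * Real.log 2 := by
        rw [show (32 : ℝ) = 2 ^ 5 by norm_num, Real.log_pow]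
        norm_num
      rw [h3] at h2
      exact h2
    have h2exp : (2 : ℝ) ≤ Real.exp (l / 5) := by
      calc (2 : ℝ) = Real.exp (Real.log 2) := (Real.exp_log (by norm_num)).symm
        _ ≤ Real.exp (l / 5) := Real.exp_le_exp.2 (by linarith)
    have hMa : 2 * M ^ 2 ≤ a := by
      have h1 : 2 * (M : ℝ) ^ 2 ≤ a := by
        calc 2 * (M : ℝ) ^ 2 ≤ Real.exp (l / 5) * Real.exp (l * (4 / 5)) :=
              mul_le_mul h2exp hM2 (by positivity) (Real.exp_pos _).le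
          _ = Real.exp l := by rw [← Real.exp_add]; congr 1; ring
          _ = a := hel
      exact_mod_cast h1
    have hsh := ExpB_shift (k := k) hβ hab hM1 hMa hta.le
    refine le_trans hsh ?_
    -- first term
    have hT1 : (1 / (M : ℝ) ^ 2) * ∑ n ∈ Ioc a b, ‖U t k M ((n : ℝ) + β)‖ ≤
        C0 * a * Real.exp (-(c * Q)) := by
      have h1 : ∀ n ∈ Ioc a b, ‖U t k M ((n : ℝ) + β)‖ ≤ C0 * (M : ℝ) ^ 2 * Real.exp (-(c * Q)) := by
        intro n hn
        rw [Finset.mem_Ioc] at hn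
        have hn1 : (a : ℝ) ≤ n := by exact_mod_cast hn.1.le
        have hn2 : (n : ℝ) + 1 ≤ 2 * a := by exact_mod_cast (by omega : n + 1 ≤ 2 * a)
        have h2 := hU a ((n : ℝ) + β) t haN1 (by linarith) (by linarith) ht
        refine le_trans h2 ?_
        rw [hform]
        refine mul_le_mul_of_nonneg_left (Real.exp_le_exp.2 ?_) (by positivity)
        have := mul_le_mul_of_nonneg_right hc0' hQ0
        linarith
      have h3 : ∑ n ∈ Ioc a b, ‖U t k M ((n : ℝ) + β)‖ ≤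
          ((b : ℝ) - a) * (C0 * (M : ℝ) ^ 2 * Real.exp (-(c * Q))) := by
        calc ∑ n ∈ Ioc a b, ‖U t k M ((n : ℝ) + β)‖
            ≤ ∑ n ∈ Ioc a b, C0 * (M : ℝ) ^ 2 * Real.exp (-(c * Q)) := Finset.sum_le_sum h1
          _ = ((b : ℝ) - a) * (C0 * (M : ℝ) ^ 2 * Real.exp (-(c * Q))) := by
              rw [Finset.sum_const, nsmul_eq_mul, hcard]
      calc (1 / (M : ℝ) ^ 2) * ∑ n ∈ Ioc a b, ‖U t k M ((n : ℝ) + β)‖
          ≤ (1 / (M : ℝ) ^ 2) *
            (((b : ℝ) - a) * (C0 * (M : ℝ) ^ 2 * Real.exp (-(c * Q)))) :=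
            mul_le_mul_of_nonneg_left h3 (by positivity)
        _ = ((b : ℝ) - a) * (C0 * Real.exp (-(c * Q))) := by
            field_simp
        _ ≤ a * (C0 * Real.exp (-(c * Q))) :=
            mul_le_mul_of_nonneg_right hba (by positivity)
        _ = C0 * a * Real.exp (-(c * Q)) := by ring
    -- second term
    have hT2 : 2 * (M : ℝ) ^ 2 ≤ 2 * a * Real.exp (-(c * Q)) := by
      calc 2 * (M : ℝ) ^ 2 ≤ 2 * Real.exp (l * (4 / 5)) := by linarith
        _ = 2 * (Real.exp l * Real.exp (-(l / 5))) := by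
            rw [← Real.exp_add]; congr 2; ring
        _ ≤ 2 * (Real.exp l * Real.exp (-(c * Q))) := by
            refine mul_le_mul_of_nonneg_left ?_ (by norm_num)
            exact mul_le_mul_of_nonneg_left (Real.exp_le_exp.2 (by linarith)) (Real.exp_pos _).le
        _ = 2 * a * Real.exp (-(c * Q)) := by rw [hel]; ring
    -- third term
    have hT3 : ((b : ℝ) - a) * (2 * t * ((M : ℝ) ^ 2 / a) ^ (k + 1)) ≤
        2 * a * Real.exp (-(c * Q)) := by
      have h1 : (M : ℝ) ^ 2 / a ≤ Real.exp (-(l / 5)) := by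
        rw [div_le_iff₀ ha0]
        calc (M : ℝ) ^ 2 ≤ Real.exp (l * (4 / 5)) := hM2
          _ = Real.exp (-(l / 5)) * Real.exp l := by rw [← Real.exp_add]; congr 1; ring
          _ = Real.exp (-(l / 5)) * a := by rw [hel]
      have h2 : ((M : ℝ) ^ 2 / a) ^ (k + 1) ≤ Real.exp (((k + 1 : ℕ) : ℝ) * (-(l / 5))) := by
        rw [Real.exp_nat_mul]
        exact pow_le_pow_left₀ (by positivity) h1 (k + 1)
      have h3 : 5 * (τ / l) + 6 ≤ ((k + 1 : ℕ) : ℝ) := by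
        rw [hk]
        push_cast
        have := Nat.le_ceil (5 * (Real.log t / Real.log a))
        linarith
      have h4 : τ + 6 / 5 * l ≤ ((k + 1 : ℕ) : ℝ) * (l / 5) := by
        have h5 := mul_le_mul_of_nonneg_right h3 (show 0 ≤ l / 5 by positivity)
        have h6 : (5 * (τ / l) + 6) * (l / 5) = τ + 6 / 5 * l := by
          field_simp
        linarith
      have h5 : t * ((M : ℝ) ^ 2 / a) ^ (k + 1) ≤ Real.exp (-(c * Q)) := by
        calc t * ((M : ℝ) ^ 2 / a) ^ (k + 1)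
            ≤ t * Real.exp (((k + 1 : ℕ) : ℝ) * (-(l / 5))) :=
              mul_le_mul_of_nonneg_left h2 hta.le
          _ = Real.exp τ * Real.exp (((k + 1 : ℕ) : ℝ) * (-(l / 5))) := by rw [heτ]
          _ = Real.exp (τ + ((k + 1 : ℕ) : ℝ) * (-(l / 5))) := by rw [Real.exp_add]
          _ ≤ Real.exp (-(c * Q)) := by
              refine Real.exp_le_exp.2 ?_
              have : ((k + 1 : ℕ) : ℝ) * (-(l / 5)) = -(((k + 1 : ℕ) : ℝ) * (l / 5)) := by ring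
              rw [this]
              linarith
      have h6 : 0 ≤ t * ((M : ℝ) ^ 2 / a) ^ (k + 1) := by positivity
      calc ((b : ℝ) - a) * (2 * t * ((M : ℝ) ^ 2 / a) ^ (k + 1))
          = ((b : ℝ) - a) * (2 * (t * ((M : ℝ) ^ 2 / a) ^ (k + 1))) := by ring
        _ ≤ a * (2 * (t * ((M : ℝ) ^ 2 / a) ^ (k + 1))) :=
            mul_le_mul_of_nonneg_right hba (by positivity)
        _ ≤ a * (2 * Real.exp (-(c * Q))) := by
            refine mul_le_mul_of_nonneg_left ?_ ha0.le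
            exact mul_le_mul_of_nonneg_left h5 (by norm_num)
        _ = 2 * a * Real.exp (-(c * Q)) := by ring
    have hsum : C0 * a * Real.exp (-(c * Q)) + 2 * a * Real.exp (-(c * Q)) +
        2 * a * Real.exp (-(c * Q)) ≤ C * a * Real.exp (-(c * Q)) := by
      have h1 : (C0 + 4) * (a * Real.exp (-(c * Q))) ≤ C * (a * Real.exp (-(c * Q))) :=
        mul_le_mul_of_nonneg_right hC4 (by positivity)
      calc C0 * a * Real.exp (-(c * Q)) + 2 * a * Real.exp (-(c * Q)) +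
            2 * a * Real.exp (-(c * Q)) = (C0 + 4) * (a * Real.exp (-(c * Q))) := by ring
        _ ≤ C * (a * Real.exp (-(c * Q))) := h1
        _ = C * a * Real.exp (-(c * Q)) := by ring
    linarith

theorem exp_sum : ∃ c C : ℝ, 0 < c ∧ 1 ≤ C ∧ ∀ (a b : ℕ) (β t : ℝ), 2 ≤ a → a < b → b ≤ 2 * a →
    0 ≤ β → β ≤ 1 → (a : ℝ) ^ ((4 : ℝ) / 5) ≤ t →
    ‖∑ n ∈ Ioc a b, (((n : ℝ) + β : ℝ) : ℂ) ^ (-(t * Complex.I))‖ ≤
      C * a * Real.exp (-c * Real.log a ^ 6 / Real.log t ^ 5) := by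
  obtain ⟨c, C, hc, hc20, hC, hmain⟩ := ExpB_main
  refine ⟨c, C + 1, hc, by linarith, ?_⟩
  intro a b β t ha hab hb hβ hβ1 ht
  have haR : (2 : ℝ) ≤ a := by exact_mod_cast ha
  have ha0 : (0 : ℝ) < a := by linarith
  have hE0 : 0 < Real.exp (-c * Real.log a ^ 6 / Real.log t ^ 5) := Real.exp_pos _
  rcases Nat.lt_or_ge b (2 * a) with h | h
  · refine (hmain a b β t ha hab h hβ hβ1 ht).trans ?_
    have : 0 ≤ (a : ℝ) * Real.exp (-c * Real.log a ^ 6 / Real.log t ^ 5) := by positivity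
    nlinarith
  · obtain ⟨b', rfl⟩ : ∃ b' : ℕ, b = b' + 1 := ⟨b - 1, by omega⟩
    rw [Finset.sum_Ioc_succ_top (by omega : a ≤ b')]
    have h1 := hmain a b' β t ha (by omega) (by omega) hβ hβ1 ht
    have h2 : ‖((((b' + 1 : ℕ) : ℝ) + β : ℝ) : ℂ) ^ (-(t * Complex.I))‖ = 1 := by
      refine ExpB_norm t ?_
      have : (0 : ℝ) < ((b' + 1 : ℕ) : ℝ) := by exact_mod_cast Nat.succ_pos _
      positivity
    have h3 : 1 ≤ (a : ℝ) * Real.exp (-c * Real.log a ^ 6 / Real.log t ^ 5) := by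
      have hl0 : 0 < Real.log a := Real.log_pos (by linarith)
      have hta : 0 < t := lt_of_lt_of_le (Real.rpow_pos_of_pos ha0 _) ht
      have hτl : 4 / 5 * Real.log a ≤ Real.log t := by
        have h1 := Real.log_le_log (Real.rpow_pos_of_pos ha0 ((4 : ℝ) / 5)) ht
        rwa [Real.log_rpow ha0] at h1
      have hτ0 : 0 < Real.log t := by linarith
      have hQ4 : Real.log a ^ 6 / Real.log t ^ 5 ≤ 4 * Real.log a := by
        rw [div_le_iff₀ (by positivity)]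
        have h1 : (4 / 5 * Real.log a) ^ 5 ≤ Real.log t ^ 5 :=
          pow_le_pow_left₀ (by positivity) hτl 5
        have h2 : 4 * Real.log a * (4 / 5 * Real.log a) ^ 5 ≤ 4 * Real.log a * Real.log t ^ 5 :=
          mul_le_mul_of_nonneg_left h1 (by positivity)
        have h3 : Real.log a ^ 6 ≤ 4 * Real.log a * (4 / 5 * Real.log a) ^ 5 := by
          have : 4 * Real.log a * (4 / 5 * Real.log a) ^ 5 = 4096 / 3125 * Real.log a ^ 6 := by ring
          rw [this]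
          have := pow_pos hl0 6
          linarith
        linarith
      have hQ0 : 0 ≤ Real.log a ^ 6 / Real.log t ^ 5 := by positivity
      have h4 : c * (Real.log a ^ 6 / Real.log t ^ 5) ≤ Real.log a := by
        calc c * (Real.log a ^ 6 / Real.log t ^ 5) ≤ 1 / 20 * (Real.log a ^ 6 / Real.log t ^ 5) :=
              mul_le_mul_of_nonneg_right hc20 hQ0
          _ ≤ 1 / 20 * (4 * Real.log a) := mul_le_mul_of_nonneg_left hQ4 (by norm_num)
          _ ≤ Real.log a := by linarith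
      have h5 : (a : ℝ) * Real.exp (-c * Real.log a ^ 6 / Real.log t ^ 5) =
          Real.exp (Real.log a - c * (Real.log a ^ 6 / Real.log t ^ 5)) := by
        rw [sub_eq_add_neg, Real.exp_add, Real.exp_log ha0]
        congr 2
        ring
      rw [h5]
      exact Real.one_le_exp (by linarith)
    refine (norm_add_le _ _).trans ?_
    rw [h2]
    linarith

end VKC
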