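import Pool.Agent.VKC.Defs

/-!
# VKC.LHalf: the L-functions to the right of the line 1

PROOF. `L_lower`: `1/L(s,χ) = ∑ μ(n) χ(n) n^(-s)` (Mathlib: `DirichletCharacter.LSeries.mul_mu_eq_one`), so
`‖1/L(s,χ)‖ ≤ ∑ n^(-σ) = ‖ζ(σ)‖ ≤ C/(σ-1)` for `1 < σ ≤ 3` (compare `VKZ.zeta_lower` in `Pool/Agent/VKZ/Approx.lean`).
`L_log`: `-L'/L(s,χ) = ∑ Λ(n) χ(n) n^(-s)` (Mathlib: `DirichletCharacter.LSeries_twist_vonMangoldt_eq`,
`DirichletCharacter.deriv_LFunction_eq_deriv_LSeries`), so its norm is at most `‖ζ'/ζ(σ)‖ ≤ 1/(σ-1) + C` (see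
`VKZ.logderiv_upper` and its proof).
`L_341`: as `free_341` in `Pool/Agent/VKZ/Free.lean`. The real part of the `n`-th term is, with `χ(n) n^(-it) = u`, `|u| ≤ 1`, and either `u = 0`
or `|u| = 1`: `Λ(n) n^(-σ) (3 + 4 Re u + Re u^2) ≥ 0`.
-/

namespace VKC

private theorem LHalf_vm {M : ℕ} [NeZero M] (χ : DirichletCharacter ℂ M) {s : ℂ} (hs : 1 < s.re) :
    deriv χ.LFunction s / χ.LFunction s =
      -LSeries (fun n => χ n * ((ArithmeticFunction.vonMangoldt n : ℝ) : ℂ)) s := by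
  have h1 := DirichletCharacter.LSeries_twist_vonMangoldt_eq χ hs
  have h2 := DirichletCharacter.deriv_LFunction_eq_deriv_LSeries χ hs
  have h3 := DirichletCharacter.LFunction_eq_LSeries χ hs
  have h4 : LSeries (fun n => χ n * ((ArithmeticFunction.vonMangoldt n : ℝ) : ℂ)) s =
      -deriv (LSeries (χ ·)) s / LSeries (χ ·) s := h1
  rw [h4, h2, h3, neg_div, neg_neg]

private theorem LHalf_sum {M : ℕ} [NeZero M] (χ : DirichletCharacter ℂ M) {s : ℂ} (hs : 1 < s.re) :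
    Summable (LSeries.term (fun n => χ n * ((ArithmeticFunction.vonMangoldt n : ℝ) : ℂ)) s) :=
  DirichletCharacter.LSeriesSummable_twist_vonMangoldt χ hs

/-- the weights -/
private noncomputable def LHalf_r (σ : ℝ) (n : ℕ) : ℝ :=
  ArithmeticFunction.vonMangoldt n * Real.exp (-(σ * Real.log n))

private theorem LHalf_r_nonneg (σ : ℝ) (n : ℕ) : 0 ≤ LHalf_r σ n :=
  mul_nonneg ArithmeticFunction.vonMangoldt_nonneg (Real.exp_pos _).le

/-- the unimodular factor -/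
private noncomputable def LHalf_u {M : ℕ} (χ : DirichletCharacter ℂ M) (t : ℝ) (n : ℕ) : ℂ :=
  χ n * Complex.exp (-(t * Real.log n) * Complex.I)

private theorem LHalf_u_norm {M : ℕ} (χ : DirichletCharacter ℂ M) (t : ℝ) (n : ℕ) :
    ‖LHalf_u χ t n‖ ≤ 1 := by
  unfold LHalf_u
  rw [norm_mul]
  have h : ‖Complex.exp (-(t * Real.log n) * Complex.I)‖ = 1 := by
    have h1 : -((t : ℂ) * (Real.log n : ℝ)) * Complex.I = ((-(t * Real.log n) : ℝ) : ℂ) * Complex.I := by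
      push_cast
      ring
    rw [h1, Complex.norm_exp_ofReal_mul_I]
  rw [h, mul_one]
  exact DirichletCharacter.norm_le_one χ n

private theorem LHalf_pow (σ t : ℝ) {n : ℕ} (hn : n ≠ 0) :
    ((n : ℂ) ^ ((σ : ℂ) + t * Complex.I))⁻¹ = (Real.exp (-(σ * Real.log n)) : ℝ) *
      Complex.exp (-(t * Real.log n) * Complex.I) := by
  have hn0 : (n : ℂ) ≠ 0 := by exact_mod_cast hn
  rw [← Complex.cpow_neg, Complex.cpow_def_of_ne_zero hn0, Complex.ofReal_exp, ← Complex.exp_add,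
    ← Complex.natCast_log]
  congr 1
  push_cast
  ring

private theorem LHalf_term {M : ℕ} (χ : DirichletCharacter ℂ M) (σ t : ℝ) (n : ℕ) :
    LSeries.term (fun n => χ n * ((ArithmeticFunction.vonMangoldt n : ℝ) : ℂ))
      ((σ : ℂ) + t * Complex.I) n = (LHalf_r σ n : ℂ) * LHalf_u χ t n := by
  rcases eq_or_ne n 0 with rfl | hn
  · simp [LHalf_r]
  · rw [LSeries.term_of_ne_zero hn, div_eq_mul_inv, LHalf_pow σ t hn]
    unfold LHalf_r LHalf_u
    push_cast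
    ring

private theorem LHalf_term0 (σ : ℝ) (n : ℕ) :
    LSeries.term (fun n => ((ArithmeticFunction.vonMangoldt n : ℝ) : ℂ)) (σ : ℂ) n =
      ((LHalf_r σ n : ℝ) : ℂ) := by
  rcases eq_or_ne n 0 with rfl | hn
  · simp [LHalf_r]
  · rw [LSeries.term_of_ne_zero hn, div_eq_mul_inv]
    have h := LHalf_pow σ 0 hn
    simp only [Complex.ofReal_zero, zero_mul, add_zero, neg_zero, Complex.exp_zero, mul_one] at h
    rw [h]
    unfold LHalf_r
    push_cast
    ring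

private theorem LHalf_r_sum {σ : ℝ} (hσ : 1 < σ) : Summable (LHalf_r σ) := by
  have h1 : Summable (LSeries.term (fun n => ((ArithmeticFunction.vonMangoldt n : ℝ) : ℂ)) (σ : ℂ)) :=
    ArithmeticFunction.LSeriesSummable_vonMangoldt (s := (σ : ℂ)) (by simpa using hσ)
  refine h1.norm.congr fun n => ?_
  rw [LHalf_term0, Complex.norm_real, Real.norm_of_nonneg (LHalf_r_nonneg σ n)]

private theorem LHalf_zeta {σ : ℝ} (hσ : 1 < σ) :
    deriv riemannZeta (σ : ℂ) / riemannZeta (σ : ℂ) = -((∑' n, LHalf_r σ n : ℝ) : ℂ) := by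
  have h1 := ArithmeticFunction.LSeries_vonMangoldt_eq_deriv_riemannZeta_div
    (s := (σ : ℂ)) (by simpa using hσ)
  have h2 : LSeries (fun n => ((ArithmeticFunction.vonMangoldt n : ℝ) : ℂ)) (σ : ℂ) =
      ((∑' n, LHalf_r σ n : ℝ) : ℂ) := by
    unfold LSeries
    rw [Complex.ofReal_tsum]
    exact tsum_congr fun n => LHalf_term0 σ n
  have h3 : LSeries (fun n => ((ArithmeticFunction.vonMangoldt n : ℝ) : ℂ)) (σ : ℂ) =
      -deriv riemannZeta (σ : ℂ) / riemannZeta (σ : ℂ) := h1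
  rw [← h2, h3, neg_div, neg_neg]

theorem L_lower (M : ℕ) [NeZero M] : ∃ c : ℝ, 0 < c ∧ ∀ (χ : DirichletCharacter ℂ M) (s : ℂ), 1 < s.re →
    s.re ≤ 3 → c * (s.re - 1) ≤ ‖χ.LFunction s‖ := by
  refine ⟨1 / 3, by norm_num, fun χ s hs hs3 => ?_⟩
  have hz : 0 < s.re - 1 := by linarith
  have h0 := DirichletCharacter.LSeries.mul_mu_eq_one χ hs
  have h0' : LSeries (fun n => χ n) s * LSeries (fun n => χ n * ((ArithmeticFunction.moebius n : ℤ) : ℂ)) s =
      1 := h0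
  rw [DirichletCharacter.LFunction_eq_LSeries χ hs]
  have h1 := Pool.Hhelper76.SC.zb_LSeries_le
    (f := fun n => χ n * ((ArithmeticFunction.moebius n : ℤ) : ℂ)) (fun n => by
      rw [norm_mul, Complex.norm_intCast]
      have h2 : ‖χ n‖ ≤ 1 := DirichletCharacter.norm_le_one χ n
      have h3 : |((ArithmeticFunction.moebius n : ℤ) : ℝ)| ≤ 1 := by
        exact_mod_cast ArithmeticFunction.abs_moebius_le_one
      calc ‖χ n‖ * |((ArithmeticFunction.moebius n : ℤ) : ℝ)| ≤ 1 * 1 :=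
            mul_le_mul h2 h3 (abs_nonneg _) zero_le_one
        _ = 1 := one_mul 1) hs
  have h2 := Pool.Hhelper76.SC.zb_real_le hz
  rw [show 1 + (s.re - 1) = s.re by ring] at h2
  have h3 := congrArg (fun z : ℂ => ‖z‖) h0'
  simp only [norm_mul, norm_one] at h3
  have h4 : (1 + 1 / (s.re - 1)) * (s.re - 1) = s.re := by
    field_simp
    ring
  have h5 : 1 ≤ ‖LSeries (fun n => χ n) s‖ * (1 + 1 / (s.re - 1)) := by
    exact h3.symm.le.trans (mul_le_mul_of_nonneg_left (h1.trans h2) (norm_nonneg _))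
  have h6 : s.re - 1 ≤ ‖LSeries (fun n => χ n) s‖ * s.re := by
    calc s.re - 1 = 1 * (s.re - 1) := (one_mul _).symm
      _ ≤ (‖LSeries (fun n => χ n) s‖ * (1 + 1 / (s.re - 1))) * (s.re - 1) :=
          mul_le_mul_of_nonneg_right h5 hz.le
      _ = ‖LSeries (fun n => χ n) s‖ * ((1 + 1 / (s.re - 1)) * (s.re - 1)) := by ring
      _ = _ := by rw [h4]
  have h7 : ‖LSeries (fun n => χ n) s‖ * s.re ≤ ‖LSeries (fun n => χ n) s‖ * 3 :=
    mul_le_mul_of_nonneg_left hs3 (norm_nonneg _)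
  show 1 / 3 * (s.re - 1) ≤ ‖LSeries (fun n => χ n) s‖
  linarith

theorem L_log (M : ℕ) [NeZero M] : ∃ C : ℝ, 0 < C ∧ ∀ (χ : DirichletCharacter ℂ M) (s : ℂ), 1 < s.re →
    ‖deriv χ.LFunction s / χ.LFunction s‖ ≤ 1 / (s.re - 1) + C := by
  obtain ⟨C, hC, h⟩ := VKZ.logderiv_upper
  refine ⟨C, hC, fun χ s hs => ?_⟩
  have hs' : 1 < ((s.re : ℝ) : ℂ).re := by simpa using hs
  have h1 := h (s.re : ℂ) hs'
  rw [Complex.ofReal_re, LHalf_zeta hs, norm_neg, Complex.norm_real,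
    Real.norm_of_nonneg (tsum_nonneg fun n => LHalf_r_nonneg _ n)] at h1
  refine le_trans ?_ h1
  rw [LHalf_vm χ hs, norm_neg]
  have h2 : s = ((s.re : ℝ) : ℂ) + ((s.im : ℝ) : ℂ) * Complex.I := (Complex.re_add_im s).symm
  have hsum := (LHalf_sum χ hs).norm
  have hle : ∀ n, ‖LSeries.term (fun n => χ n * ((ArithmeticFunction.vonMangoldt n : ℝ) : ℂ)) s n‖ ≤
      LHalf_r s.re n := by
    intro n
    rw [h2, LHalf_term, norm_mul, Complex.norm_real, Real.norm_of_nonneg (LHalf_r_nonneg _ n)]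
    have h3 : (((s.re : ℝ) : ℂ) + ((s.im : ℝ) : ℂ) * Complex.I).re = s.re := by rw [← h2]
    rw [h3]
    exact mul_le_of_le_one_right (LHalf_r_nonneg _ n) (LHalf_u_norm χ _ n)
  exact (norm_tsum_le_tsum_norm hsum).trans (hsum.tsum_le_tsum hle (LHalf_r_sum hs))

theorem L_341 {M : ℕ} [NeZero M] (χ : DirichletCharacter ℂ M) {σ : ℝ} (t : ℝ) (hσ : 1 < σ) :
    0 ≤ 3 * (-(deriv riemannZeta (σ : ℂ) / riemannZeta (σ : ℂ)).re) +
      4 * (-(deriv χ.LFunction (σ + t * Complex.I) / χ.LFunction (σ + t * Complex.I)).re) +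
      (-(deriv (χ ^ 2).LFunction (σ + (2 * t : ℝ) * Complex.I) /
        (χ ^ 2).LFunction (σ + (2 * t : ℝ) * Complex.I)).re) := by
  have hre : ∀ τ : ℝ, 1 < ((σ : ℂ) + τ * Complex.I).re := by
    intro τ
    simpa using hσ
  have hval : ∀ (ψ : DirichletCharacter ℂ M) (τ : ℝ),
      -(deriv ψ.LFunction (σ + τ * Complex.I) / ψ.LFunction (σ + τ * Complex.I)).re =
      ∑' n, LHalf_r σ n * (LHalf_u ψ τ n).re := by
    intro ψ τ
    rw [LHalf_vm ψ (hre τ), Complex.neg_re, neg_neg, LSeries, Complex.re_tsum (LHalf_sum ψ (hre τ))]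
    refine tsum_congr fun n => ?_
    rw [LHalf_term, Complex.re_ofReal_mul]
  have hs : ∀ (ψ : DirichletCharacter ℂ M) (τ : ℝ), Summable fun n => LHalf_r σ n * (LHalf_u ψ τ n).re := by
    intro ψ τ
    refine (Complex.hasSum_re (LHalf_sum ψ (hre τ)).hasSum).summable.congr fun n => ?_
    rw [LHalf_term, Complex.re_ofReal_mul]
  have h0 : -(deriv riemannZeta (σ : ℂ) / riemannZeta (σ : ℂ)).re = ∑' n, LHalf_r σ n := by
    rw [LHalf_zeta hσ, Complex.neg_re, neg_neg, Complex.ofReal_re]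
  rw [h0, hval χ t, hval (χ ^ 2) (2 * t), ← tsum_mul_left, ← tsum_mul_left,
    ← ((LHalf_r_sum hσ).mul_left 3).tsum_add ((hs χ t).mul_left 4),
    ← (((LHalf_r_sum hσ).mul_left 3).add ((hs χ t).mul_left 4)).tsum_add (hs (χ ^ 2) (2 * t))]
  refine tsum_nonneg fun n => ?_
  have h1 : LHalf_u (χ ^ 2) (2 * t) n = LHalf_u χ t n * LHalf_u χ t n := by
    unfold LHalf_u
    have h2 : (χ ^ 2) (n : ZMod M) = χ n * χ n := by
      rw [MulChar.pow_apply' χ two_ne_zero, sq]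
    rw [h2, show -(((2 * t : ℝ) : ℂ) * (Real.log n : ℝ)) * Complex.I =
      -((t : ℂ) * (Real.log n : ℝ)) * Complex.I + -((t : ℂ) * (Real.log n : ℝ)) * Complex.I by
        push_cast; ring, Complex.exp_add]
    ring
  have h3 := LHalf_u_norm χ t n
  set u := LHalf_u χ t n with hu
  have h4 : u.re ^ 2 + u.im ^ 2 ≤ 1 := by
    have h5 : ‖u‖ ^ 2 ≤ 1 := by
      calc ‖u‖ ^ 2 ≤ 1 ^ 2 := pow_le_pow_left₀ (norm_nonneg _) h3 2
        _ = 1 := one_pow 2
    rw [← Complex.normSq_eq_norm_sq, Complex.normSq_apply] at h5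
    nlinarith
  have h6 : (LHalf_u (χ ^ 2) (2 * t) n).re = u.re ^ 2 - u.im ^ 2 := by
    rw [h1, Complex.mul_re]
    ring
  rw [h6]
  have h7 := LHalf_r_nonneg σ n
  have h8 : 3 * LHalf_r σ n + 4 * (LHalf_r σ n * u.re) + LHalf_r σ n * (u.re ^ 2 - u.im ^ 2) =
      LHalf_r σ n * (3 + 4 * u.re + (u.re ^ 2 - u.im ^ 2)) := by ring
  rw [h8]
  refine mul_nonneg h7 ?_
  nlinarith [sq_nonneg (1 + u.re)]

end VKC
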