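import Pool.Agent.VKC.ClassSum
import Pool.Agent.PNE.Cut

/-!
# VKC.LBound: the size of the L-functions near the line

PROOF. Character version of `VKZ.zeta_bound` (file `Pool/Agent/VKZ/ZBound.lean`). By conjugation
(`L(conj s, conj χ) = conj L(s, χ)`; or: apply the estimate for the sums to the inverse character and conjugate the finite sums
only) we may take `t = s.im > 0`. `Pool.Agent.PNE.L_eq_cut` with `T = t`:
`L(s,χ) = ∑_{n ≤ T} χ(n) n^(-s) + dlt χ T^(1-s)/(s-1) - Ech χ T T^(-s) + s Tail χ T s`, where `‖dlt χ‖ ≤ 1` (see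
`Pool/Agent/PNE/Der.lean`, `Der_norm_dlt`), `‖Ech‖ ≤ 2M`, `‖Tail‖ ≤ 2M T^(-σ)/σ` (`Pool.Agent.PNE.norm_Ech_le`, `norm_Tail_le`).
All the last three terms are at most `C(M) T^(1-σ)`, and `T^(1-σ) ≤ exp((log t)^(1/10))`; this is not bounded, so take
instead `T = 2^J`, `J` the smallest integer with `2^J ≥ t^(5/4)/4` or so (`2^(J-1) ≤ t^(5/4)`, so all the dyadic blocks `(2^j, 2^(j+1)]`, `j < J`, satisfy
`a^(4/5) ≤ t`): then `|s| T^(-σ) ≤ 4 t · t^(-5/4 σ) · C ≤ C` and the pole term is even smaller. (This is the choice of `ZBound.lean`: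
see there `ZBound_block`, `ZBound_dyadic`; the same estimates, with `VKC.class_sum` in place of `VKZ.exp_sum`, give
`‖∑_{a < n ≤ 2a} χ(n) n^(-s)‖ ≤ 3 + C` for each dyadic block, and there are at most `2 log t` blocks.)
-/

namespace VKC

open Finset Complex

private theorem LBound_abel (f : ℕ → ℝ) (g : ℕ → ℂ) (B : ℝ) (n : ℕ) (hn : 1 ≤ n)
    (hf : Antitone f) (hf0 : ∀ i, 0 ≤ f i)
    (hg : ∀ m ≤ n, ‖∑ i ∈ range m, g i‖ ≤ B) :
    ‖∑ i ∈ range n, (f i : ℂ) * g i‖ ≤ f 0 * B := by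
  have h := Finset.sum_range_by_parts f g n
  simp only [Complex.real_smul] at h
  rw [h]
  have h1 : ‖(f (n - 1) : ℂ) * ∑ i ∈ range n, g i‖ ≤ f (n - 1) * B := by
    rw [norm_mul, Complex.norm_real, Real.norm_of_nonneg (hf0 _)]
    exact mul_le_mul_of_nonneg_left (hg n le_rfl) (hf0 _)
  have h2 : ‖∑ i ∈ range (n - 1), (((f (i + 1) - f i : ℝ)) : ℂ) * ∑ j ∈ range (i + 1), g j‖ ≤
      ∑ i ∈ range (n - 1), (f i - f (i + 1)) * B := by
    refine (norm_sum_le _ _).trans (Finset.sum_le_sum fun i hi => ?_)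
    rw [Finset.mem_range] at hi
    have h3 : f (i + 1) ≤ f i := hf (Nat.le_succ i)
    rw [norm_mul, Complex.norm_real, Real.norm_of_nonpos (by linarith), neg_sub]
    exact mul_le_mul_of_nonneg_left (hg (i + 1) (by omega)) (by linarith)
  rw [← Finset.sum_mul, Finset.sum_range_sub'] at h2
  calc _ ≤ f (n - 1) * B + (f 0 - f (n - 1)) * B := (norm_sub_le _ _).trans (add_le_add h1 h2)
    _ = f 0 * B := by ring

private theorem LBound_sum_shift (F : ℕ → ℂ) (a m : ℕ) :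
    ∑ n ∈ Ioc a (a + m), F n = ∑ i ∈ range m, F (a + 1 + i) := by
  induction m with
  | zero => simp
  | succ m ih =>
    rw [Finset.sum_range_succ, ← ih, ← add_assoc, Finset.sum_Ioc_succ_top (Nat.le_add_right a m)]
    congr 2
    omega

private theorem LBound_split (σ t : ℝ) (s : ℂ) (hs : s = (σ : ℂ) + t * I) (n : ℕ) (hn : n ≠ 0) :
    (n : ℂ) ^ (-s) = (((n : ℝ) ^ (-σ) : ℝ) : ℂ) * (n : ℂ) ^ (-(t * I)) := by
  have h0 : (n : ℂ) ≠ 0 := by exact_mod_cast hn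
  rw [hs, neg_add, Complex.cpow_add _ _ h0, Complex.ofReal_cpow (Nat.cast_nonneg n)]
  push_cast
  ring

private theorem LBound_block {M : ℕ} [NeZero M] (χ : DirichletCharacter ℂ M) {c C : ℝ} (hC : 1 ≤ C)
    (hE : ∀ (a b : ℕ) (t : ℝ), 2 ≤ a → a < b → b ≤ 2 * a → (a : ℝ) ^ ((4 : ℝ) / 5) ≤ t →
      ‖∑ n ∈ Ioc a b, χ n * (n : ℂ) ^ (-(t * Complex.I))‖ ≤
        C * a * Real.exp (-c * Real.log a ^ 6 / Real.log t ^ 5))
    {σ t x : ℝ} (hx : 2 ≤ x) (hcx : 1 ≤ c * x ^ 4) (hL : Real.log t = x ^ 10)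
    (hre : 1 - (x ^ 9)⁻¹ ≤ σ) (a : ℕ) (ha : 1 ≤ a)
    (hat : (a : ℝ) ^ ((4 : ℝ) / 5) ≤ t) (s : ℂ) (hs : s = (σ : ℂ) + t * I) :
    ‖∑ n ∈ Ioc a (2 * a), χ n * (n : ℂ) ^ (-s)‖ ≤ 3 + C := by
  have hx0 : 0 < x := by linarith
  have hx9 : (1 : ℝ) ≤ x ^ 9 := one_le_pow₀ (by linarith)
  have ha0 : (0 : ℝ) < a := by exact_mod_cast ha
  have hinv : (x ^ 9)⁻¹ ≤ 1 := inv_le_one_of_one_le₀ hx9
  have hσ0 : 0 ≤ σ := by linarith
  have hloga : 0 ≤ Real.log a := Real.log_nonneg (by exact_mod_cast ha)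
  have hpow : (a : ℝ) ^ (1 - σ) ≤ Real.exp ((x ^ 9)⁻¹ * Real.log a) := by
    rw [Real.rpow_def_of_pos ha0]
    apply Real.exp_le_exp.mpr
    rw [mul_comm]
    apply mul_le_mul_of_nonneg_right _ hloga
    linarith
  have hanti : ∀ n : ℕ, a ≤ n → (n : ℝ) ^ (-σ) ≤ (a : ℝ) ^ (-σ) := by
    intro n hn
    exact Real.rpow_le_rpow_of_nonpos ha0 (by exact_mod_cast hn) (by linarith)
  by_cases hcase : Real.log a ≤ x ^ 9
  · have h1 : ‖∑ n ∈ Ioc a (2 * a), χ n * (n : ℂ) ^ (-s)‖ ≤ a * (a : ℝ) ^ (-σ) := by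
      refine (norm_sum_le _ _).trans ?_
      have h2 : ∀ n ∈ Ioc a (2 * a), ‖χ n * (n : ℂ) ^ (-s)‖ ≤ (a : ℝ) ^ (-σ) := by
        intro n hn
        rw [Finset.mem_Ioc] at hn
        rw [norm_mul, Complex.norm_natCast_cpow_of_pos (by omega)]
        have : (-s).re = -σ := by rw [hs]; simp
        rw [this]
        have h3 := χ.norm_le_one n
        have h4 : 0 ≤ (n : ℝ) ^ (-σ) := by positivity
        calc ‖χ n‖ * (n : ℝ) ^ (-σ) ≤ 1 * (n : ℝ) ^ (-σ) := mul_le_mul_of_nonneg_right h3 h4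
          _ = (n : ℝ) ^ (-σ) := one_mul _
          _ ≤ _ := hanti n hn.1.le
      refine (Finset.sum_le_sum h2).trans ?_
      rw [Finset.sum_const, Nat.card_Ioc, nsmul_eq_mul]
      apply le_of_eq
      congr 2
      omega
    have h3 : a * (a : ℝ) ^ (-σ) = (a : ℝ) ^ (1 - σ) := by
      rw [sub_eq_add_neg, Real.rpow_add ha0, Real.rpow_one]
    have h4 : (x ^ 9)⁻¹ * Real.log a ≤ 1 := by
      rw [inv_mul_le_iff₀ (by positivity)]
      linarith
    have h5 : Real.exp ((x ^ 9)⁻¹ * Real.log a) ≤ Real.exp 1 := Real.exp_le_exp.mpr h4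
    have h6 := Real.exp_one_lt_d9
    linarith
  · push Not at hcase
    have ha2 : 2 ≤ a := by
      by_contra hcon
      have : a = 1 := by omega
      rw [this] at hcase
      simp at hcase
      linarith
    have ht1 : 1 ≤ t := by
      refine le_trans ?_ hat
      exact Real.one_le_rpow (by exact_mod_cast ha) (by norm_num)
    set B := C * a * Real.exp (-c * Real.log a ^ 6 / Real.log t ^ 5) with hB
    have hBpos : 0 ≤ B := by positivity
    have hsum : ∑ n ∈ Ioc a (2 * a), χ n * (n : ℂ) ^ (-s) = ∑ i ∈ range a,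
        ((((a + 1 + i : ℕ) : ℝ) ^ (-σ) : ℝ) : ℂ) *
          (χ ((a + 1 + i : ℕ) : ZMod M) * ((a + 1 + i : ℕ) : ℂ) ^ (-(t * I))) := by
      rw [two_mul, LBound_sum_shift]
      refine Finset.sum_congr rfl fun i _ => ?_
      rw [LBound_split σ t s hs _ (by omega)]
      ring
    rw [hsum]
    have key := LBound_abel (fun i => ((a + 1 + i : ℕ) : ℝ) ^ (-σ))
      (fun i => χ ((a + 1 + i : ℕ) : ZMod M) * ((a + 1 + i : ℕ) : ℂ) ^ (-(t * I))) B a ha
      (by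
        intro i j hij
        apply Real.rpow_le_rpow_of_nonpos (by positivity) (by exact_mod_cast (by omega)) (by linarith))
      (fun i => by positivity)
      (by
        intro m hm
        rcases Nat.eq_zero_or_pos m with h0 | h0
        · rw [h0]
          simpa using hBpos
        · rw [← LBound_sum_shift (fun n => χ (n : ZMod M) * (n : ℂ) ^ (-(t * I)))]
          exact hE a (a + m) t ha2 (by omega) (by omega) hat)
    refine key.trans ?_
    have h7 : ((a + 1 + 0 : ℕ) : ℝ) ^ (-σ) ≤ (a : ℝ) ^ (-σ) := hanti _ (by omega)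
    have h8 : (a : ℝ) ^ (-σ) * B = C * ((a : ℝ) ^ (1 - σ) *
        Real.exp (-c * Real.log a ^ 6 / Real.log t ^ 5)) := by
      have h3 : (a : ℝ) ^ (1 - σ) = a * (a : ℝ) ^ (-σ) := by
        rw [sub_eq_add_neg, Real.rpow_add ha0, Real.rpow_one]
      rw [h3, hB]
      ring
    have h9 : (a : ℝ) ^ (1 - σ) * Real.exp (-c * Real.log a ^ 6 / Real.log t ^ 5) ≤ 1 := by
      calc (a : ℝ) ^ (1 - σ) * Real.exp (-c * Real.log a ^ 6 / Real.log t ^ 5) ≤
          Real.exp ((x ^ 9)⁻¹ * Real.log a) * Real.exp (-c * Real.log a ^ 6 / Real.log t ^ 5) :=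
            mul_le_mul_of_nonneg_right hpow (Real.exp_pos _).le
        _ = Real.exp ((x ^ 9)⁻¹ * Real.log a + -c * Real.log a ^ 6 / Real.log t ^ 5) := by
            rw [Real.exp_add]
        _ ≤ Real.exp 0 := by
            apply Real.exp_le_exp.mpr
            rw [hL]
            have hu : 0 < Real.log a := lt_of_lt_of_le (by positivity) hcase.le
            have hu5 : (x ^ 9) ^ 5 ≤ Real.log a ^ 5 := pow_le_pow_left₀ (by positivity) hcase.le 5
            have hc0 : 0 < c := by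
              by_contra hcon
              push Not at hcon
              have : c * x ^ 4 ≤ 0 := mul_nonpos_of_nonpos_of_nonneg hcon (by positivity)
              linarith
            have e1 : (x ^ 9)⁻¹ * Real.log a + -c * Real.log a ^ 6 / (x ^ 10) ^ 5 =
                (Real.log a / x ^ 50) * (x ^ 41 - c * Real.log a ^ 5) := by
              field_simp
              ring
            rw [e1]
            apply mul_nonpos_of_nonneg_of_nonpos (by positivity)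
            have e2 : x ^ 41 ≤ c * (x ^ 9) ^ 5 := by
              have : c * (x ^ 9) ^ 5 = (c * x ^ 4) * x ^ 41 := by ring
              rw [this]
              have h10 : (0 : ℝ) ≤ x ^ 41 := by positivity
              nlinarith
            have e3 : c * (x ^ 9) ^ 5 ≤ c * Real.log a ^ 5 := mul_le_mul_of_nonneg_left hu5 hc0.le
            linarith
        _ = 1 := Real.exp_zero
    calc ((a + 1 + 0 : ℕ) : ℝ) ^ (-σ) * B ≤ (a : ℝ) ^ (-σ) * B :=
          mul_le_mul_of_nonneg_right h7 hBpos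
      _ = C * ((a : ℝ) ^ (1 - σ) * Real.exp (-c * Real.log a ^ 6 / Real.log t ^ 5)) := h8
      _ ≤ C * 1 := mul_le_mul_of_nonneg_left h9 (by linarith)
      _ ≤ 3 + C := by linarith

private theorem LBound_dyadic (F : ℕ → ℂ) (D : ℝ) (J : ℕ)
    (h : ∀ j < J, ‖∑ n ∈ Ioc (2 ^ j) (2 * 2 ^ j), F n‖ ≤ D) :
    ‖∑ n ∈ Icc 1 (2 ^ J), F n‖ ≤ ‖F 1‖ + J * D := by
  induction J with
  | zero => simp
  | succ J ih =>
    have h1 := ih fun j hj => h j (by omega)
    have h2 := h J (by omega)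
    have h3 : ∑ n ∈ Icc 1 (2 ^ (J + 1)), F n =
        ∑ n ∈ Icc 1 (2 ^ J), F n + ∑ n ∈ Ioc (2 ^ J) (2 * 2 ^ J), F n := by
      have hp : 1 ≤ 2 ^ J := Nat.one_le_two_pow
      rw [pow_succ, mul_comm]
      rw [← Finset.sum_union]
      · congr 1
        ext n
        simp only [Finset.mem_Icc, Finset.mem_union, Finset.mem_Ioc]
        omega
      · rw [Finset.disjoint_left]
        intro n hn hn'
        rw [Finset.mem_Icc] at hn
        rw [Finset.mem_Ioc] at hn'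
        omega
    rw [h3]
    refine (norm_add_le _ _).trans ?_
    push_cast
    linarith

private theorem LBound_conj {M : ℕ} [NeZero M] (χ : DirichletCharacter ℂ M) (s : ℂ)
    (S : Finset ℕ) :
    ‖∑ n ∈ S, χ n * (n : ℂ) ^ (-s)‖ =
      ‖∑ n ∈ S, χ⁻¹ n * (n : ℂ) ^ (-((starRingEnd ℂ) s))‖ := by
  rw [← Complex.norm_conj, map_sum]
  congr 1
  refine Finset.sum_congr rfl fun n _ => ?_
  rw [map_mul]
  congr 1
  · have := MulChar.star_apply' χ (n : ZMod M)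
    simpa using this
  · have harg : (n : ℂ).arg ≠ Real.pi := by
      rw [Complex.natCast_arg]
      exact Real.pi_pos.ne
    have := Complex.cpow_conj (n : ℂ) (-s) harg
    rw [Complex.conj_natCast] at this
    rw [← this, map_neg]

theorem L_bound (M : ℕ) [NeZero M] : ∃ C t0 : ℝ, 1 ≤ C ∧ 3 ≤ t0 ∧
    ∀ (χ : DirichletCharacter ℂ M) (s : ℂ), t0 ≤ |s.im| → s.re ≤ 3 →
    1 - (Real.log |s.im|) ^ (-(9 : ℝ) / 10) ≤ s.re → ‖χ.LFunction s‖ ≤ C * Real.log |s.im| := by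
  obtain ⟨c, C, hc, hC, hE⟩ := class_sum M
  set X0 := max 2 (1 / c) with hX0
  have hX2 : 2 ≤ X0 := le_max_left _ _
  have hXc : 1 / c ≤ X0 := le_max_right _ _
  have hM1 : (1 : ℝ) ≤ M := by exact_mod_cast NeZero.pos M
  refine ⟨16 + 2 * C + 20 * M, Real.exp (X0 ^ 10), by linarith, ?_, ?_⟩
  · have h1 : Real.exp 1024 ≤ Real.exp (X0 ^ 10) := by
      apply Real.exp_le_exp.mpr
      calc (1024 : ℝ) = 2 ^ 10 := by norm_num
        _ ≤ X0 ^ 10 := pow_le_pow_left₀ (by norm_num) hX2 10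
    have h2 := Real.add_one_le_exp (1024 : ℝ)
    linarith
  intro χ s him hre3 hre
  set t := |s.im| with ht
  set σ := s.re with hσ
  have ht0 : 0 < t := lt_of_lt_of_le (Real.exp_pos _) him
  have hL1 : X0 ^ 10 ≤ Real.log t := (Real.le_log_iff_exp_le ht0).mpr him
  have hL0 : 0 < Real.log t := lt_of_lt_of_le (by positivity) hL1
  set x := (Real.log t) ^ (1 / 10 : ℝ) with hx
  have hx0 : 0 < x := Real.rpow_pos_of_pos hL0 _
  have hx10 : x ^ 10 = Real.log t := by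
    rw [hx, ← Real.rpow_natCast, ← Real.rpow_mul hL0.le]
    norm_num
  have hx9 : (Real.log t) ^ (-(9 : ℝ) / 10) = (x ^ 9)⁻¹ := by
    rw [hx, ← Real.rpow_natCast, ← Real.rpow_mul hL0.le, ← Real.rpow_neg hL0.le]
    norm_num
  have hxX : X0 ≤ x := by
    rw [← hx10] at hL1
    exact le_of_pow_le_pow_left₀ (by norm_num) hx0.le hL1
  have hx2 : 2 ≤ x := hX2.trans hxX
  have hcx : 1 ≤ c * x ^ 4 := by
    have h1 : 1 ≤ c * x := by
      have h2 : 1 / c ≤ x := hXc.trans hxX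
      rw [div_le_iff₀ hc] at h2
      linarith
    have h3 : x ≤ x ^ 4 := by
      calc x = x ^ 1 := (pow_one x).symm
        _ ≤ x ^ 4 := pow_le_pow_right₀ (by linarith) (by norm_num)
    have := mul_le_mul_of_nonneg_left h3 hc.le
    linarith
  rw [hx9] at hre
  have hx9' : (512 : ℝ) ≤ x ^ 9 := by
    calc (512 : ℝ) = 2 ^ 9 := by norm_num
      _ ≤ x ^ 9 := pow_le_pow_left₀ (by norm_num) hx2 9
  have hinv : (x ^ 9)⁻¹ ≤ 1 / 10 := by
    rw [one_div]
    apply inv_anti₀ (by norm_num)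
    linarith
  have hσ9 : 9 / 10 ≤ σ := by linarith
  have hlog1 : 1 ≤ Real.log t := by
    rw [← hx10]
    exact one_le_pow₀ (by linarith)
  have ht1 : 1 ≤ t := by
    by_contra hcon
    push Not at hcon
    have := Real.log_neg ht0 hcon
    linarith
  have ht3 : 3 ≤ t := by
    have h1 : Real.exp 1024 ≤ t := by
      refine le_trans (Real.exp_le_exp.mpr ?_) him
      calc (1024 : ℝ) = 2 ^ 10 := by norm_num
        _ ≤ X0 ^ 10 := pow_le_pow_left₀ (by norm_num) hX2 10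
    have h2 := Real.add_one_le_exp (1024 : ℝ)
    linarith
  -- the number of blocks
  set n0 := ⌊t ^ ((5 : ℝ) / 4)⌋₊ with hn0
  have htp : 1 ≤ t ^ ((5 : ℝ) / 4) := Real.one_le_rpow ht1 (by norm_num)
  have hn1 : 1 ≤ n0 := Nat.le_floor (by exact_mod_cast htp)
  have hn2 : (n0 : ℝ) ≤ t ^ ((5 : ℝ) / 4) := Nat.floor_le (by linarith)
  have hn3 : t ^ ((5 : ℝ) / 4) < n0 + 1 := Nat.lt_floor_add_one _
  set J := Nat.log 2 n0 with hJ
  have hJ1 : 2 ^ J ≤ n0 := Nat.pow_log_le_self 2 (by omega)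
  have hJ2 : n0 < 2 ^ (J + 1) := Nat.lt_pow_succ_log_self (by norm_num) n0
  have hJ1' : ((2 ^ J : ℕ) : ℝ) ≤ t ^ ((5 : ℝ) / 4) := by
    have : ((2 ^ J : ℕ) : ℝ) ≤ n0 := by exact_mod_cast hJ1
    linarith
  have hJ2' : t ^ ((5 : ℝ) / 4) ≤ 2 * ((2 ^ J : ℕ) : ℝ) := by
    have h1 : ((n0 + 1 : ℕ) : ℝ) ≤ ((2 ^ (J + 1) : ℕ) : ℝ) := by exact_mod_cast hJ2
    push_cast at h1 ⊢
    rw [pow_succ] at h1
    linarith
  -- the sum, for any character and with a positive imaginary part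
  have hsum0 : ∀ ψ : DirichletCharacter ℂ M, ∀ z : ℂ, z = (σ : ℂ) + t * I →
      ‖∑ n ∈ Icc (1 : ℕ) (2 ^ J), ψ n * (n : ℂ) ^ (-z)‖ ≤ 1 + J * (3 + C) := by
    intro ψ z hz
    have hblock : ∀ j < J,
        ‖∑ n ∈ Ioc ((2 : ℕ) ^ j) (2 * 2 ^ j), ψ n * (n : ℂ) ^ (-z)‖ ≤ 3 + C := by
      intro j hj
      apply LBound_block ψ hC (hE ψ) hx2 hcx hx10.symm hre (2 ^ j) Nat.one_le_two_pow _ z hz
      have h1 : ((2 ^ j : ℕ) : ℝ) ≤ t ^ ((5 : ℝ) / 4) := by
        refine le_trans ?_ hJ1'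
        exact_mod_cast Nat.pow_le_pow_right (by norm_num) hj.le
      calc ((2 ^ j : ℕ) : ℝ) ^ ((4 : ℝ) / 5) ≤ (t ^ ((5 : ℝ) / 4)) ^ ((4 : ℝ) / 5) :=
            Real.rpow_le_rpow (by positivity) h1 (by norm_num)
        _ = t := by
            rw [← Real.rpow_mul ht0.le]
            norm_num
    have h := LBound_dyadic (fun n => ψ n * (n : ℂ) ^ (-z)) (3 + C) J hblock
    exact h.trans (by simp)
  have hsum : ‖∑ n ∈ Icc (1 : ℕ) (2 ^ J), χ n * (n : ℂ) ^ (-s)‖ ≤ 1 + J * (3 + C) := by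
    rcases le_total 0 s.im with h | h
    · apply hsum0 χ s
      rw [ht, abs_of_nonneg h]
      exact (Complex.re_add_im s).symm
    · rw [LBound_conj]
      apply hsum0 χ⁻¹
      rw [ht, abs_of_nonpos h]
      apply Complex.ext <;> simp [hσ]
  have hJL : (J : ℝ) ≤ 2 * Real.log t := by
    have h1 : Real.log ((2 ^ J : ℕ) : ℝ) ≤ Real.log (t ^ ((5 : ℝ) / 4)) :=
      Real.log_le_log (by positivity) hJ1'
    rw [Real.log_rpow ht0] at h1
    push_cast at h1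
    rw [Real.log_pow] at h1
    have h2 := Real.log_two_gt_d9
    have h3 : (J : ℝ) * 0.6931471803 ≤ J * Real.log 2 :=
      mul_le_mul_of_nonneg_left h2.le (Nat.cast_nonneg J)
    linarith
  have hNpos : (0 : ℝ) < ((2 ^ J : ℕ) : ℝ) := by positivity
  have hN1 : (1 : ℝ) ≤ ((2 ^ J : ℕ) : ℝ) := by exact_mod_cast Nat.one_le_two_pow
  have hs1 : s ≠ 1 := by
    intro h
    have : t = 0 := by rw [ht, h]; simp
    linarith
  have hσ0 : 0 < s.re := by linarith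
  have happ := Pool.Agent.PNE.L_eq_cut χ hN1 hσ0 hs1
  rw [Nat.floor_natCast] at happ
  -- first error term
  have hden : t ≤ ‖s - 1‖ := by
    have h1 := Complex.abs_im_le_norm (s - 1)
    have h2 : (s - 1).im = s.im := by simp
    rw [h2] at h1
    exact h1
  have hdlt : ‖Pool.Agent.PNE.dlt χ‖ ≤ 1 := by
    have hN : (0 : ℝ) < M := by linarith
    unfold Pool.Agent.PNE.dlt
    rw [norm_div, Complex.norm_natCast, div_le_one hN]
    calc ‖∑ a : ZMod M, χ a‖ ≤ ∑ a : ZMod M, ‖χ a‖ := norm_sum_le _ _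
      _ ≤ ∑ _a : ZMod M, (1 : ℝ) := Finset.sum_le_sum fun a _ => χ.norm_le_one a
      _ = M := by simp [ZMod.card]
  have herr1 : ‖(((2 ^ J : ℕ) : ℝ) : ℂ) ^ (1 - s) / (s - 1)‖ ≤ 1 := by
    rw [norm_div, Complex.norm_cpow_eq_rpow_re_of_pos hNpos]
    have h1 : (1 - s).re = 1 - σ := by simp [hσ]
    rw [h1]
    have h2 : ((2 ^ J : ℕ) : ℝ) ^ (1 - σ) ≤ ((2 ^ J : ℕ) : ℝ) ^ ((1 : ℝ) / 10) :=
      Real.rpow_le_rpow_of_exponent_le hN1 (by linarith)
    have h3 : ((2 ^ J : ℕ) : ℝ) ^ ((1 : ℝ) / 10) ≤ (t ^ ((5 : ℝ) / 4)) ^ ((1 : ℝ) / 10) :=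
      Real.rpow_le_rpow (by positivity) hJ1' (by norm_num)
    have h4 : (t ^ ((5 : ℝ) / 4)) ^ ((1 : ℝ) / 10) ≤ t := by
      rw [← Real.rpow_mul ht0.le]
      calc t ^ ((5 : ℝ) / 4 * (1 / 10)) ≤ t ^ (1 : ℝ) :=
            Real.rpow_le_rpow_of_exponent_le ht1 (by norm_num)
        _ = t := Real.rpow_one t
    rw [div_le_one (by linarith)]
    linarith
  -- second error term
  have hns : ‖s‖ ≤ 2 * t := by
    have h1 : ‖s‖ ≤ |s.re| + |s.im| := Complex.norm_le_abs_re_add_abs_im s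
    rw [← ht, ← hσ, abs_of_nonneg (show 0 ≤ σ by linarith)] at h1
    linarith
  have hNσ : ((2 ^ J : ℕ) : ℝ) ^ (-σ) ≤ 2 / t := by
    have h1 : ((2 ^ J : ℕ) : ℝ) ^ (-σ) ≤ ((2 ^ J : ℕ) : ℝ) ^ (-((9 : ℝ) / 10)) :=
      Real.rpow_le_rpow_of_exponent_le hN1 (by linarith)
    have h2 : t ^ ((5 : ℝ) / 4) / 2 ≤ ((2 ^ J : ℕ) : ℝ) := by linarith
    have h3 : ((2 ^ J : ℕ) : ℝ) ^ (-((9 : ℝ) / 10)) ≤
        (t ^ ((5 : ℝ) / 4) / 2) ^ (-((9 : ℝ) / 10)) :=
      Real.rpow_le_rpow_of_nonpos (by positivity) h2 (by norm_num)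
    have h4 : (t ^ ((5 : ℝ) / 4) / 2) ^ (-((9 : ℝ) / 10)) ≤ 2 / t := by
      rw [Real.div_rpow (by positivity) (by norm_num), ← Real.rpow_mul ht0.le]
      have h5 : t ^ ((5 : ℝ) / 4 * (-(9 / 10))) ≤ t ^ (-1 : ℝ) :=
        Real.rpow_le_rpow_of_exponent_le ht1 (by norm_num)
      rw [Real.rpow_neg_one] at h5
      have h6 : (2 : ℝ) ^ (-((9 : ℝ) / 10)) ≥ 2⁻¹ := by
        rw [← Real.rpow_neg_one]
        exact Real.rpow_le_rpow_of_exponent_le (by norm_num) (by norm_num)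
      have h7 : (0 : ℝ) < 2⁻¹ := by norm_num
      calc t ^ ((5 : ℝ) / 4 * (-(9 / 10))) / (2 : ℝ) ^ (-((9 : ℝ) / 10)) ≤ t⁻¹ / 2⁻¹ :=
            div_le_div₀ (by positivity) h5 h7 h6
        _ = 2 / t := by
            field_simp
    linarith
  have h2t : 2 / t ≤ 1 := by
    rw [div_le_one ht0]
    linarith
  have herr2 : ‖Pool.Agent.PNE.Ech χ ((2 ^ J : ℕ) : ℝ) * (((2 ^ J : ℕ) : ℝ) : ℂ) ^ (-s)‖ ≤
      2 * M := by
    rw [norm_mul, Complex.norm_cpow_eq_rpow_re_of_pos hNpos, Complex.neg_re, ← hσ]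
    have h1 := Pool.Agent.PNE.norm_Ech_le χ hNpos.le
    calc _ ≤ 2 * (M : ℝ) * 1 := mul_le_mul h1 (hNσ.trans h2t) (by positivity) (by positivity)
      _ = 2 * M := mul_one _
  have herr3 : ‖s * Pool.Agent.PNE.Tail χ ((2 ^ J : ℕ) : ℝ) s‖ ≤ 9 * M := by
    rw [norm_mul]
    have h1 := Pool.Agent.PNE.norm_Tail_le χ hNpos hσ0
    rw [← hσ] at h1
    have h2 : 2 * (M : ℝ) * ((2 ^ J : ℕ) : ℝ) ^ (-σ) / σ ≤ 2 * M * (2 / t) / (9 / 10) := by
      apply div_le_div₀ (by positivity) _ (by norm_num) hσ9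
      exact mul_le_mul_of_nonneg_left hNσ (by positivity)
    calc _ ≤ 2 * t * (2 * M * (2 / t) / (9 / 10)) :=
          mul_le_mul hns (h1.trans h2) (norm_nonneg _) (by positivity)
      _ = 80 / 9 * M := by
          field_simp
          ring
      _ ≤ 9 * M := by linarith
  have herr1' : ‖Pool.Agent.PNE.dlt χ * (((2 ^ J : ℕ) : ℝ) : ℂ) ^ (1 - s) / (s - 1)‖ ≤ 1 := by
    rw [mul_div_assoc, norm_mul]
    calc _ ≤ (1 : ℝ) * 1 := mul_le_mul hdlt herr1 (norm_nonneg _) (by norm_num)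
      _ = 1 := mul_one _
  have hfin : ‖χ.LFunction s‖ ≤
      ‖∑ n ∈ Icc (1 : ℕ) (2 ^ J), χ n * (n : ℂ) ^ (-s)‖ + 1 + 2 * M + 9 * M := by
    rw [happ]
    refine (norm_add_le _ _).trans (add_le_add ?_ herr3)
    refine (norm_sub_le _ _).trans (add_le_add ?_ herr2)
    exact (norm_add_le _ _).trans (add_le_add le_rfl herr1')
  have hJD : (J : ℝ) * (3 + C) ≤ 2 * Real.log t * (3 + C) :=
    mul_le_mul_of_nonneg_right hJL (by linarith)
  nlinarith

end VKC
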