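import Pool.Agent.VKC.Free

/-!
# VKC.Region: the zero free region, uniform version, for `χ ≠ 1`

PROOF. As `Pool/Agent/VKZ/Region.lean`, but simpler: for `χ ≠ 1` the function `L(s,χ)` is entire
(`DirichletCharacter.differentiable_LFunction`) without zeros on `Re s ≥ 1`
(`DirichletCharacter.LFunction_ne_zero_of_one_le_re`). For `|t| ≥ t1` use `VKC.near`, for `|t| ≤ t1` compactness.
-/

namespace VKC

open Complex

private theorem Region_ne {M : ℕ} [NeZero M] {χ : DirichletCharacter ℂ M} (hχ : χ ≠ 1) {z : ℂ}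
    (hz : 1 ≤ z.re) : χ.LFunction z ≠ 0 :=
  DirichletCharacter.LFunction_ne_zero_of_one_le_re χ (Or.inl hχ) hz

private theorem Region_log (t : ℝ) : 1 ≤ Real.log (|t| + 3) := by
  have h1 : Real.exp 1 ≤ |t| + 3 := by
    have h2 := Real.exp_one_lt_d9
    have h3 := abs_nonneg t
    linarith
  rw [Real.le_log_iff_exp_le (by positivity)]
  exact h1

private theorem Region_compact {M : ℕ} [NeZero M] {χ : DirichletCharacter ℂ M} (hχ : χ ≠ 1)
    (T : ℝ) : ∃ w B : ℝ, 0 < w ∧ ∀ s : ℂ, s.re ≤ 3 → 1 - w ≤ s.re →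
    |s.im| ≤ T → χ.LFunction s ≠ 0 ∧ ‖deriv χ.LFunction s / χ.LFunction s‖ ≤ B ∧
    ‖(χ.LFunction s)⁻¹‖ ≤ B := by
  set K : Set ℂ := {z : ℂ | z.re ∈ Set.Icc 1 3 ∧ z.im ∈ Set.Icc (-T) T} with hK
  have hKc : IsCompact K := by
    have h1 : K = Set.Icc (1 : ℝ) 3 ×ℂ Set.Icc (-T) T := by
      ext z
      rw [Complex.mem_reProdIm]
      rfl
    rw [h1]
    exact isCompact_Icc.reProdIm isCompact_Icc
  have hdiff : Differentiable ℂ χ.LFunction := DirichletCharacter.differentiable_LFunction hχ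
  have hcont : Continuous χ.LFunction := hdiff.continuous
  have hopen : IsOpen {z : ℂ | χ.LFunction z ≠ 0} := isOpen_ne.preimage hcont
  obtain ⟨δ, hδ, hsub⟩ := hKc.exists_cthickening_subset_open hopen
    (fun z hz => Region_ne hχ hz.1.1)
  have hcpt : IsCompact (Metric.cthickening δ K) := hKc.cthickening
  have hd : Continuous (deriv χ.LFunction) :=
    (hdiff.contDiff (n := 1)).continuous_deriv le_rfl
  have c1 : ContinuousOn (fun z => deriv χ.LFunction z / χ.LFunction z)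
      (Metric.cthickening δ K) :=
    hd.continuousOn.div hcont.continuousOn fun z hz => hsub hz
  have c2 : ContinuousOn (fun z => (χ.LFunction z)⁻¹) (Metric.cthickening δ K) :=
    hcont.continuousOn.inv₀ fun z hz => hsub hz
  obtain ⟨B1, hB1⟩ := hcpt.exists_bound_of_continuousOn c1
  obtain ⟨B2, hB2⟩ := hcpt.exists_bound_of_continuousOn c2
  refine ⟨δ, max B1 B2, hδ, fun s hs3 hs1 ht => ?_⟩
  have hmem : s ∈ Metric.cthickening δ K := by
    refine Metric.mem_cthickening_of_dist_le s (⟨max s.re 1, s.im⟩ : ℂ) δ K ?_ ?_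
    · refine ⟨⟨le_max_right _ _, max_le hs3 (by norm_num)⟩, ?_⟩
      rw [abs_le] at ht
      exact ht
    · rw [Complex.dist_eq]
      have e : s - (⟨max s.re 1, s.im⟩ : ℂ) = ((s.re - max s.re 1 : ℝ) : ℂ) := by
        apply Complex.ext <;> simp
      rw [e, Complex.norm_real, Real.norm_eq_abs, abs_le]
      rcases le_total s.re 1 with h | h
      · rw [max_eq_right h]
        constructor <;> linarith
      · rw [max_eq_left h]
        constructor <;> linarith
  exact ⟨hsub hmem, (hB1 s hmem).trans (le_max_left _ _), (hB2 s hmem).trans (le_max_right _ _)⟩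

theorem region {M : ℕ} [NeZero M] {χ : DirichletCharacter ℂ M} (hχ : χ ≠ 1) :
    ∃ c C : ℝ, 0 < c ∧ c ≤ 1 / 4 ∧ 1 ≤ C ∧ ∀ s : ℂ, s.re ≤ 3 →
    1 - c * (Real.log (|s.im| + 3)) ^ (-(19 : ℝ) / 20) ≤ s.re →
    χ.LFunction s ≠ 0 ∧ ‖deriv χ.LFunction s / χ.LFunction s‖ ≤ C * Real.log (|s.im| + 3) ^ C ∧
    ‖(χ.LFunction s)⁻¹‖ ≤ C * Real.log (|s.im| + 3) ^ C := by
  obtain ⟨C1, t1, hC1, ht1, hnear⟩ := near M
  obtain ⟨w, B, hw, hcomp⟩ := Region_compact hχ t1
  refine ⟨min (1 / 32) w, C1 + 1 + |B|, lt_min (by norm_num) hw,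
    (min_le_left _ _).trans (by norm_num), ?_, ?_⟩
  · have := abs_nonneg B
    linarith
  intro s hs3 hs1
  have hL1 := Region_log s.im
  set L' : ℝ := Real.log (|s.im| + 3) with hL'
  have hpow1 : L' ^ (-(19 : ℝ) / 20) ≤ 1 := Real.rpow_le_one_of_one_le_of_nonpos hL1 (by norm_num)
  have hpow0 : 0 ≤ L' ^ (-(19 : ℝ) / 20) := Real.rpow_nonneg (by linarith) _
  have hB0 := abs_nonneg B
  have hCpos : 0 ≤ C1 + 1 + |B| := by linarith
  have hLC : 1 ≤ L' ^ (C1 + 1 + |B|) := Real.one_le_rpow hL1 hCpos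
  rcases le_total |s.im| t1 with ht | ht
  · have hs1' : 1 - w ≤ s.re := by
      have h1 : min (1 / 32) w * L' ^ (-(19 : ℝ) / 20) ≤ w * 1 :=
        mul_le_mul (min_le_right _ _) hpow1 hpow0 hw.le
      linarith
    obtain ⟨h1, h2, h3⟩ := hcomp s hs3 hs1' ht
    have h4 : B ≤ (C1 + 1 + |B|) * L' ^ (C1 + 1 + |B|) := by
      have h5 := le_abs_self B
      calc B ≤ (C1 + 1 + |B|) * 1 := by linarith
        _ ≤ _ := mul_le_mul_of_nonneg_left hLC hCpos
    exact ⟨h1, h2.trans h4, h3.trans h4⟩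
  · have ht3 : 3 ≤ |s.im| := ht1.trans ht
    have hL0 : 1 ≤ Real.log |s.im| := by
      have h1 : Real.exp 1 ≤ |s.im| := by
        have h2 := Real.exp_one_lt_d9
        linarith
      rw [Real.le_log_iff_exp_le (by positivity)]
      exact h1
    set L : ℝ := Real.log |s.im| with hL
    have hLL : L ≤ L' := Real.log_le_log (by linarith) (by linarith)
    have hreg : 1 - (1 / 32) * L ^ (-(19 : ℝ) / 20) ≤ s.re := by
      have h1 : L' ^ (-(19 : ℝ) / 20) ≤ L ^ (-(19 : ℝ) / 20) :=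
        Real.rpow_le_rpow_of_nonpos (by linarith) hLL (by norm_num)
      have h2 : min (1 / 32) w * L' ^ (-(19 : ℝ) / 20) ≤ 1 / 32 * L ^ (-(19 : ℝ) / 20) :=
        mul_le_mul (min_le_left _ _) h1 hpow0 (by norm_num)
      linarith
    obtain ⟨h1, h2⟩ := hnear χ s ht hs3 hreg
    have hpL : 0 < L ^ C1 := Real.rpow_pos_of_pos (by linarith) _
    have hz : χ.LFunction s ≠ 0 := by
      intro h0
      rw [h0, norm_zero, mul_zero] at h2
      linarith
    have hbig : C1 * L ^ C1 ≤ (C1 + 1 + |B|) * L' ^ (C1 + 1 + |B|) := by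
      have h3 : L ^ C1 ≤ L' ^ (C1 + 1 + |B|) :=
        (Real.rpow_le_rpow (by linarith) hLL (by linarith)).trans
          (Real.rpow_le_rpow_of_exponent_le hL1 (by linarith))
      exact mul_le_mul (by linarith) h3 hpL.le hCpos
    refine ⟨hz, h1.trans hbig, ?_⟩
    rw [norm_inv]
    refine (inv_le_iff_one_le_mul₀ (norm_pos_iff.2 hz)).2 ?_
    exact h2.trans (mul_le_mul_of_nonneg_right hbig (norm_nonneg _))

end VKC
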