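import Pool.Agent.VKC.Defs
import Pool.Agent.VKZ.Holder
import Pool.Agent.VKZ.Wsum
import Pool.Agent.VKZ.Mvt

/-!
# VKC.UBound: the bilinear sum is small (real base point)

PROOF. This is `VKZ.U_bound` (file `Pool/Agent/VKZ/UBound.lean`) with the natural number `n`, `a < n ≤ 2a`, replaced by
a real number `x`, `a ≤ x ≤ 2a`. The proof there uses `n` only through `(a : ℝ) ≤ n`, `(n : ℝ) ≤ 2 * a` and `VKZ.alf`:
copy the file (its lemmas are private), change `alf t n j` into `VKC.alf t x j` and `U t k M n` into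
`VKC.U t k M x`. All the imported tools (`VKZ.holder`, `VKZ.mvt`, `VKZ.W_trivial`, `VKZ.W_small`) stay as they are.
-/

namespace VKC

open Finset

private lemma UBound_root {u E : ℝ} {q : ℕ} (hu : 0 ≤ u) (hq : 0 < q) (h : u ^ q ≤ Real.exp E) :
    u ≤ Real.exp (E / q) := by
  have h1 : Real.exp (E / q) ^ q = Real.exp E := by
    rw [← Real.exp_nat_mul]
    congr 1
    have : (q : ℝ) ≠ 0 := by positivity
    field_simp
  rw [← h1] at h
  exact (pow_le_pow_iff_left₀ hu (Real.exp_pos _).le hq.ne').1 h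

/-- The numerical core: the bound for the one-dimensional sum at `j0`. -/
private lemma UBound_rho {κ ℓ m lt s : ℝ} {j0 k : ℕ} {al : ℝ}
    (hκ : 4 / 5 ≤ κ) (hℓ : 277 ≤ ℓ) (hm1 : m ≤ 2 / 5 * ℓ) (hm2 : 2 / 5 * ℓ - Real.log 2 ≤ m)
    (hlt : lt = κ * ℓ) (hs : (k : ℝ) ≤ s) (hj1 : 2 * κ ≤ j0) (hj2 : (j0 : ℝ) ≤ 2 * κ + 1) (hjk : j0 ≤ k)
    (hj0 : 1 ≤ j0)
    (hal : 1 / al ≤ 2 * Real.pi * j0 * Real.exp (j0 * (ℓ + Real.log 2) - lt)) (hal0 : 0 < al) :
    3 * (s * Real.exp (j0 * m)) + (1 + Real.log (s * Real.exp (j0 * m))) / al ≤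
      Real.exp (Real.log (9 * s ^ 2) + 2 * j0 * m - κ * ℓ / 20 - ℓ / 5 + 6 * k) := by
  have hk1 : (1 : ℝ) ≤ k := by
    have : 1 ≤ k := le_trans hj0 hjk
    exact_mod_cast this
  have hjk' : (j0 : ℝ) ≤ k := by exact_mod_cast hjk
  have hj0' : (1 : ℝ) ≤ j0 := by exact_mod_cast hj0
  have hs1 : 1 ≤ s := hk1.trans hs
  have hs0 : 0 < s := by linarith
  have hl2 : Real.log 2 ≤ 1 := by have := Real.log_two_lt_d9; linarith
  have hl20 : 0 < Real.log 2 := Real.log_pos (by norm_num)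
  have hm0 : 0 ≤ m := by linarith
  have hpi := Real.pi_lt_d2
  have hpi0 := Real.pi_pos
  have h9 : 0 < 9 * s ^ 2 := by positivity
  -- rewrite the right side
  have hR : Real.exp (Real.log (9 * s ^ 2) + 2 * j0 * m - κ * ℓ / 20 - ℓ / 5 + 6 * k) =
      9 * s ^ 2 * Real.exp (2 * j0 * m) * Real.exp (- κ * ℓ / 20 - ℓ / 5 + 6 * k) := by
    rw [show Real.log (9 * s ^ 2) + 2 * j0 * m - κ * ℓ / 20 - ℓ / 5 + 6 * k =
      Real.log (9 * s ^ 2) + 2 * j0 * m + (- κ * ℓ / 20 - ℓ / 5 + 6 * k) by ring,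
      Real.exp_add, Real.exp_add, Real.exp_log h9]
  rw [hR]
  set P := Real.exp (- κ * ℓ / 20 - ℓ / 5 + 6 * k) with hP
  -- first part
  have h1 : 3 * (s * Real.exp (j0 * m)) ≤ 9 * s ^ 2 * Real.exp (2 * j0 * m) * (1 / 3 * P) := by
    have e1 : Real.exp (2 * j0 * m) * P = Real.exp (j0 * m) * Real.exp (j0 * m +
        (- κ * ℓ / 20 - ℓ / 5 + 6 * k)) := by
      rw [hP, ← Real.exp_add, ← Real.exp_add]; congr 1; ring
    have e2 : 1 ≤ Real.exp (j0 * m + (- κ * ℓ / 20 - ℓ / 5 + 6 * k)) := by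
      rw [Real.one_le_exp_iff]
      have a1 : (j0 : ℝ) * (2 / 5 * ℓ - Real.log 2) ≤ j0 * m :=
        mul_le_mul_of_nonneg_left hm2 (by linarith)
      have a2 : 2 * κ * (2 / 5 * ℓ) ≤ j0 * (2 / 5 * ℓ) := mul_le_mul_of_nonneg_right hj1 (by linarith)
      have a3 : (j0 : ℝ) * Real.log 2 ≤ k * 1 := mul_le_mul hjk' hl2 hl20.le (by linarith)
      have a4 : 4 / 5 * ℓ ≤ κ * ℓ := mul_le_mul_of_nonneg_right hκ (by linarith)
      nlinarith
    have e3 : 9 * s ^ 2 * Real.exp (2 * j0 * m) * (1 / 3 * P) =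
        3 * s ^ 2 * (Real.exp (2 * j0 * m) * P) := by ring
    rw [e3, e1]
    have e4 : 0 < Real.exp ((j0 : ℝ) * m) := Real.exp_pos _
    have e5 : s ≤ s ^ 2 := by nlinarith
    calc 3 * (s * Real.exp (j0 * m)) = 3 * s * (Real.exp (j0 * m) * 1) := by ring
      _ ≤ 3 * s ^ 2 * (Real.exp (j0 * m) * Real.exp (j0 * m + (- κ * ℓ / 20 - ℓ / 5 + 6 * k))) := by
        apply mul_le_mul (by linarith) _ (by positivity) (by positivity)
        exact mul_le_mul_of_nonneg_left e2 e4.le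
  -- second part
  have h2 : (1 + Real.log (s * Real.exp (j0 * m))) / al ≤
      9 * s ^ 2 * Real.exp (2 * j0 * m) * (1 / 3 * P) := by
    have b0 : Real.log (s * Real.exp (j0 * m)) = Real.log s + j0 * m := by
      rw [Real.log_mul hs0.ne' (Real.exp_pos _).ne', Real.log_exp]
    have b1 : 1 + Real.log (s * Real.exp (j0 * m)) ≤ s * (1 + ℓ) := by
      rw [b0]
      have c1 : Real.log s ≤ s - 1 := Real.log_le_sub_one_of_pos hs0
      have c2 : (j0 : ℝ) * m ≤ s * ℓ := by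
        apply mul_le_mul (hjk'.trans hs) (by linarith) hm0 hs0.le
      nlinarith
    have b1' : 0 ≤ 1 + Real.log (s * Real.exp (j0 * m)) := by
      rw [b0]
      have : 0 ≤ Real.log s := Real.log_nonneg hs1
      positivity
    have b2 : (1 + Real.log (s * Real.exp (j0 * m))) / al ≤
        s * (1 + ℓ) * (2 * Real.pi * j0 * Real.exp (j0 * (ℓ + Real.log 2) - lt)) := by
      rw [div_eq_mul_one_div]
      exact mul_le_mul b1 hal (by positivity) (by positivity)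
    refine b2.trans ?_
    have b3 : 1 + ℓ ≤ 26 * Real.exp (ℓ / 25) := by
      have d1 := Real.add_one_le_exp (ℓ / 25)
      have d2 : 1 ≤ Real.exp (ℓ / 25) := Real.one_le_exp (by linarith)
      linarith
    -- 2π j0 ≤ 7 s
    have b4 : 2 * Real.pi * j0 ≤ 6.3 * s := by
      have : Real.pi * j0 ≤ 3.15 * s :=
        mul_le_mul hpi.le (hjk'.trans hs) (by linarith) (by norm_num)
      linarith
    have b5 : s * (1 + ℓ) * (2 * Real.pi * j0 * Real.exp (j0 * (ℓ + Real.log 2) - lt)) ≤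
        s * (26 * Real.exp (ℓ / 25)) * (6.3 * s * Real.exp (j0 * (ℓ + Real.log 2) - lt)) := by
      apply mul_le_mul
      · exact mul_le_mul_of_nonneg_left b3 hs0.le
      · exact mul_le_mul_of_nonneg_right b4 (Real.exp_pos _).le
      · positivity
      · positivity
    refine b5.trans ?_
    have b6 : s * (26 * Real.exp (ℓ / 25)) * (6.3 * s * Real.exp (j0 * (ℓ + Real.log 2) - lt)) =
        3 * s ^ 2 * (54.6 * (Real.exp (ℓ / 25) * Real.exp (j0 * (ℓ + Real.log 2) - lt))) := by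
      ring
    have b7 : 9 * s ^ 2 * Real.exp (2 * j0 * m) * (1 / 3 * P) =
        3 * s ^ 2 * (Real.exp (2 * j0 * m) * P) := by ring
    rw [b6, b7]
    apply mul_le_mul_of_nonneg_left _ (by positivity)
    have b8 : (54.6 : ℝ) ≤ Real.exp 5 := by
      have : (2.7 : ℝ) ≤ Real.exp 1 := by have := Real.exp_one_gt_d9; linarith
      calc (54.6 : ℝ) ≤ 2.7 ^ 5 := by norm_num
        _ ≤ Real.exp 1 ^ 5 := pow_le_pow_left₀ (by norm_num) this 5
        _ = Real.exp 5 := by rw [← Real.exp_nat_mul]; norm_num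
    calc 54.6 * (Real.exp (ℓ / 25) * Real.exp (j0 * (ℓ + Real.log 2) - lt))
        ≤ Real.exp 5 * (Real.exp (ℓ / 25) * Real.exp (j0 * (ℓ + Real.log 2) - lt)) :=
          mul_le_mul_of_nonneg_right b8 (by positivity)
      _ = Real.exp (5 + (ℓ / 25 + (j0 * (ℓ + Real.log 2) - lt))) := by
          rw [Real.exp_add, Real.exp_add]
      _ ≤ Real.exp (2 * j0 * m + (- κ * ℓ / 20 - ℓ / 5 + 6 * k)) := by
          apply Real.exp_le_exp.2
          have a1 : (j0 : ℝ) * (2 / 5 * ℓ - Real.log 2) ≤ j0 * m :=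
            mul_le_mul_of_nonneg_left hm2 (by linarith)
          have a2 : (j0 : ℝ) * ℓ ≤ (2 * κ + 1) * ℓ := mul_le_mul_of_nonneg_right hj2 (by linarith)
          have a3 : (j0 : ℝ) * Real.log 2 ≤ k * 0.7 := by
            have : Real.log 2 ≤ 0.7 := by have := Real.log_two_lt_d9; linarith
            exact mul_le_mul hjk' this hl20.le (by linarith)
          have a4 : 4 / 5 * ℓ ≤ κ * ℓ := mul_le_mul_of_nonneg_right hκ (by linarith)
          have a5 : 2 * κ + 5 ≤ k * 7 := by linarith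
          rw [hlt]
          have a6 : (2 : ℝ) ≤ k := by
            by_contra hcon
            have h7 : k < 2 := by
              have : (k : ℝ) < 2 := not_le.1 hcon
              exact_mod_cast this
            have h8 : j0 ≤ 1 := by omega
            have h9 : (j0 : ℝ) ≤ 1 := by exact_mod_cast h8
            linarith
          nlinarith
      _ = Real.exp (2 * j0 * m) * P := by rw [Real.exp_add]
  have h3 : 0 ≤ 9 * s ^ 2 * Real.exp (2 * j0 * m) * P := by positivity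
  linarith

private lemma UBound_prod {k s M j0 : ℕ} {α : ℕ → ℝ} {D : ℝ} (hs : 1 ≤ s) (hM : 1 ≤ M)
    (hj0 : j0 ∈ Icc 1 k)
    (hW : ∑ μ ∈ Icc (-((s * M ^ j0 : ℕ) : ℤ)) ((s * M ^ j0 : ℕ) : ℤ),
      ‖∑ lam ∈ Icc (-((s * M ^ j0 : ℕ) : ℤ)) ((s * M ^ j0 : ℕ) : ℤ), VKZ.e (α j0 * (lam : ℝ) * (μ : ℝ))‖ ≤
        Real.exp (Real.log (9 * (s : ℝ) ^ 2) + 2 * j0 * Real.log M + D)) :
    ∏ j ∈ Icc 1 k, ∑ μ ∈ Icc (-((s * M ^ j : ℕ) : ℤ)) ((s * M ^ j : ℕ) : ℤ),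
      ‖∑ lam ∈ Icc (-((s * M ^ j : ℕ) : ℤ)) ((s * M ^ j : ℕ) : ℤ), VKZ.e (α j * (lam : ℝ) * (μ : ℝ))‖ ≤
      Real.exp (k * Real.log (9 * (s : ℝ) ^ 2) + k * (k + 1) * Real.log M + D) := by
  have hs0 : (0 : ℝ) < s := by exact_mod_cast hs
  have hM0 : (0 : ℝ) < M := by exact_mod_cast hM
  have h9 : (0 : ℝ) < 9 * (s : ℝ) ^ 2 := by positivity
  calc ∏ j ∈ Icc 1 k, ∑ μ ∈ Icc (-((s * M ^ j : ℕ) : ℤ)) ((s * M ^ j : ℕ) : ℤ),
      ‖∑ lam ∈ Icc (-((s * M ^ j : ℕ) : ℤ)) ((s * M ^ j : ℕ) : ℤ), VKZ.e (α j * (lam : ℝ) * (μ : ℝ))‖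
      ≤ ∏ j ∈ Icc 1 k, Real.exp (Real.log (9 * (s : ℝ) ^ 2) + 2 * j * Real.log M +
          if j = j0 then D else 0) := by
        apply prod_le_prod
        · intro j _
          exact sum_nonneg fun _ _ => norm_nonneg _
        · intro j _
          by_cases hj : j = j0
          · subst hj
            simpa using hW
          · rw [if_neg hj, add_zero]
            have hL : 1 ≤ s * M ^ j := Nat.succ_le_of_lt (Nat.mul_pos hs (Nat.pow_pos hM))
            refine (VKZ.W_trivial hL (α j)).trans (le_of_eq ?_)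
            rw [Real.exp_add, Real.exp_log h9]
            have : Real.exp (2 * (j : ℝ) * Real.log M) = (M : ℝ) ^ (2 * j) := by
              rw [show 2 * (j : ℝ) * Real.log M = ((2 * j : ℕ) : ℝ) * Real.log M by push_cast; ring,
                Real.exp_nat_mul, Real.exp_log hM0]
            rw [this]
            push_cast
            ring
    _ = Real.exp (∑ j ∈ Icc 1 k, (Real.log (9 * (s : ℝ) ^ 2) + 2 * j * Real.log M +
          if j = j0 then D else 0)) := by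
        rw [Real.exp_sum]
    _ = _ := by
        congr 1
        rw [sum_add_distrib, sum_add_distrib, sum_const, sum_ite_eq', if_pos hj0]
        have : ∑ j ∈ Icc 1 k, 2 * (j : ℝ) * Real.log M = k * (k + 1) * Real.log M := by
          rw [← sum_mul, ← mul_sum]
          have h1 : ∑ j ∈ Icc 1 k, (j : ℝ) = k * (k + 1) / 2 := by
            clear hj0 hW
            induction k with
            | zero => simp
            | succ n ih =>
              rw [sum_Icc_succ_top (by omega), ih]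
              push_cast
              ring
          rw [h1]
          ring
        rw [this]
        simp

/-- assembly for given parameters -/
private lemma UBound_main {C0 : ℝ} {k s M j0 : ℕ} {x t D : ℝ} (hk : 2 ≤ k)
    (hs : s = 2 * k ^ 3 + k) (hM : 1 ≤ M)
    (hJ : (VKZ.J k s M : ℝ) ≤ Real.exp (C0 * (k : ℝ) ^ 5) *
      (M : ℝ) ^ ((2 * (2 * (k : ℝ) ^ 3 + k) - k * (k + 1) / 2 + 1 / 4 : ℝ)))
    (hj0 : j0 ∈ Icc 1 k)
    (hW : ∑ μ ∈ Icc (-((s * M ^ j0 : ℕ) : ℤ)) ((s * M ^ j0 : ℕ) : ℤ),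
      ‖∑ lam ∈ Icc (-((s * M ^ j0 : ℕ) : ℤ)) ((s * M ^ j0 : ℕ) : ℤ), VKZ.e (alf t x j0 * (lam : ℝ) * (μ : ℝ))‖ ≤
        Real.exp (Real.log (9 * (s : ℝ) ^ 2) + 2 * j0 * Real.log M + D)) :
    ‖U t k M x‖ ≤ (M : ℝ) ^ 2 * Real.exp ((2 * C0 * (k : ℝ) ^ 5 + k * Real.log (9 * (s : ℝ) ^ 2) +
      Real.log M / 2 + D) / (4 * s ^ 2)) := by
  have hk0 : 0 < k := by omega
  have hs1 : 1 ≤ s := by rw [hs]; omega
  have hs0 : (0 : ℝ) < s := by exact_mod_cast hs1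
  have hM0 : (0 : ℝ) < M := by exact_mod_cast hM
  set m := Real.log M with hm
  have hMe : Real.exp m = M := Real.exp_log hM0
  have h1 := VKZ.holder (k := k) hs1 hM (fun j => alf t x j)
  have h2 := UBound_prod (α := fun j => alf t x j) hs1 hM hj0 hW
  have hsr : (s : ℝ) = 2 * (k : ℝ) ^ 3 + k := by rw [hs]; push_cast; ring
  have h4s : 4 * s ≤ 8 * s ^ 2 := by nlinarith
  have h3 : (M : ℝ) ^ (8 * s ^ 2 - 4 * s) = Real.exp ((8 * (s : ℝ) ^ 2 - 4 * s) * m) := by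
    rw [← hMe, ← Real.exp_nat_mul, Nat.cast_sub h4s]
    push_cast
    rfl
  have h4 : (M : ℝ) ^ ((2 * (2 * (k : ℝ) ^ 3 + k) - k * (k + 1) / 2 + 1 / 4 : ℝ)) =
      Real.exp (m * (2 * (s : ℝ) - k * (k + 1) / 2 + 1 / 4)) := by
    rw [Real.rpow_def_of_pos hM0, hsr]
  have h5 : (VKZ.J k s M : ℝ) ^ 2 ≤ Real.exp (2 * C0 * (k : ℝ) ^ 5 +
      m * (4 * (s : ℝ) - k * (k + 1) + 1 / 2)) := by
    calc (VKZ.J k s M : ℝ) ^ 2 ≤ (Real.exp (C0 * (k : ℝ) ^ 5) *
          Real.exp (m * (2 * (s : ℝ) - k * (k + 1) / 2 + 1 / 4))) ^ 2 := by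
          rw [h4] at hJ
          exact pow_le_pow_left₀ (Nat.cast_nonneg _) hJ 2
      _ = _ := by
          rw [← Real.exp_add, ← Real.exp_nat_mul]
          congr 1
          push_cast
          ring
  have h6 : ‖U t k M x‖ ^ (4 * s ^ 2) ≤ Real.exp (8 * (s : ℝ) ^ 2 * m +
      (2 * C0 * (k : ℝ) ^ 5 + k * Real.log (9 * (s : ℝ) ^ 2) + m / 2 + D)) := by
    calc ‖U t k M x‖ ^ (4 * s ^ 2) ≤ (M : ℝ) ^ (8 * s ^ 2 - 4 * s) * (VKZ.J k s M : ℝ) ^ 2 *
        ∏ j ∈ Icc 1 k, ∑ μ ∈ Icc (-((s * M ^ j : ℕ) : ℤ)) ((s * M ^ j : ℕ) : ℤ),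
          ‖∑ lam ∈ Icc (-((s * M ^ j : ℕ) : ℤ)) ((s * M ^ j : ℕ) : ℤ),
            VKZ.e (alf t x j * (lam : ℝ) * (μ : ℝ))‖ := h1
      _ ≤ Real.exp ((8 * (s : ℝ) ^ 2 - 4 * s) * m) * Real.exp (2 * C0 * (k : ℝ) ^ 5 +
          m * (4 * (s : ℝ) - k * (k + 1) + 1 / 2)) *
          Real.exp (k * Real.log (9 * (s : ℝ) ^ 2) + k * (k + 1) * m + D) := by
          rw [h3]
          apply mul_le_mul _ h2 (prod_nonneg fun _ _ => sum_nonneg fun _ _ => norm_nonneg _)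
            (by positivity)
          exact mul_le_mul_of_nonneg_left h5 (Real.exp_pos _).le
      _ = _ := by
          rw [← Real.exp_add, ← Real.exp_add]
          congr 1
          ring
  have hq : 0 < 4 * s ^ 2 := by positivity
  have h7 := UBound_root (norm_nonneg _) hq h6
  refine h7.trans (le_of_eq ?_)
  have h8 : (M : ℝ) ^ 2 = Real.exp (2 * m) := by
    rw [← hMe, ← Real.exp_nat_mul]; norm_num
  rw [h8, ← Real.exp_add]
  congr 1
  push_cast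
  field_simp
  ring

theorem U_bound : ∃ c C : ℝ, ∃ N1 : ℕ, 0 < c ∧ 1 ≤ C ∧ ∀ (a : ℕ) (x t : ℝ), N1 ≤ a → (a : ℝ) ≤ x →
    x ≤ 2 * a → (a : ℝ) ^ ((4 : ℝ) / 5) ≤ t →
    ‖U t (⌈5 * (Real.log t / Real.log a)⌉₊ + 5) ⌊(a : ℝ) ^ ((2 : ℝ) / 5)⌋₊ x‖ ≤
      C * ((⌊(a : ℝ) ^ ((2 : ℝ) / 5)⌋₊ : ℕ) : ℝ) ^ 2 *
        Real.exp (-c * Real.log a ^ 6 / Real.log t ^ 5) := by
  obtain ⟨C0, hC0, hmvt⟩ := VKZ.mvt
  refine ⟨1 / (80 * 6000 ^ 2), Real.exp (2 * C0 + 24), 2 ^ 400, by norm_num,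
    Real.one_le_exp (by linarith), ?_⟩
  intro a x t ha han hn2 ht
  -- basic quantities
  set ℓ := Real.log a with hℓ
  have ha1 : ((2 : ℝ) ^ 400) ≤ a := by exact_mod_cast ha
  have ha0 : (0 : ℝ) < a := lt_of_lt_of_le (by positivity) ha1
  have hℓ1 : 277 ≤ ℓ := by
    have h1 : Real.log ((2 : ℝ) ^ 400) ≤ ℓ := Real.log_le_log (by positivity) ha1
    rw [Real.log_pow] at h1
    have h2 := Real.log_two_gt_d9
    push_cast at h1
    linarith
  have hage1 : (1 : ℝ) ≤ a := le_trans (one_le_pow₀ (by norm_num)) ha1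
  clear ha1 ha
  have hℓ0 : 0 < ℓ := by linarith
  have hae : Real.exp ℓ = a := Real.exp_log ha0
  have ht0 : 0 < t := lt_of_lt_of_le (Real.rpow_pos_of_pos ha0 _) ht
  set κ := Real.log t / ℓ with hκ
  have hlt : Real.log t = κ * ℓ := by rw [hκ]; field_simp
  have hκ1 : 4 / 5 ≤ κ := by
    rw [hκ, le_div_iff₀ hℓ0]
    have := Real.log_le_log (Real.rpow_pos_of_pos ha0 _) ht
    rwa [Real.log_rpow ha0] at this
  have hκ0 : 0 < κ := by linarith
  set k := ⌈5 * κ⌉₊ + 5 with hk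
  have hkl : 5 * κ + 5 ≤ k := by
    have := Nat.le_ceil (5 * κ)
    rw [hk]; push_cast; linarith
  have hku : (k : ℝ) ≤ 12.5 * κ := by
    have := Nat.ceil_lt_add_one (show 0 ≤ 5 * κ by linarith)
    rw [hk]; push_cast; linarith
  have hk9 : 9 ≤ k := by
    have : (8 : ℝ) < k := by linarith
    have : 8 < k := by exact_mod_cast this
    omega
  have hk9' : (9 : ℝ) ≤ k := by exact_mod_cast hk9
  set s := 2 * k ^ 3 + k with hs
  have hsr : (s : ℝ) = 2 * (k : ℝ) ^ 3 + k := by rw [hs]; push_cast; ring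
  have hsk : (k : ℝ) ≤ s := by rw [hsr]; have : (0 : ℝ) ≤ (k : ℝ) ^ 3 := by positivity
                               linarith
  have hk3 : (k : ℝ) ≤ (k : ℝ) ^ 3 := by nlinarith [sq_nonneg ((k : ℝ) - 1), mul_self_nonneg ((k : ℝ))]
  have hs3 : (s : ℝ) ≤ 3 * (k : ℝ) ^ 3 := by rw [hsr]; linarith
  have hs0 : (0 : ℝ) < s := by linarith
  have hsκ : (s : ℝ) ≤ 6000 * κ ^ 3 := by
    have h1 : (k : ℝ) ^ 3 ≤ (12.5 * κ) ^ 3 := pow_le_pow_left₀ (by linarith) hku 3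
    have h2 : (0 : ℝ) ≤ κ ^ 3 := by positivity
    calc (s : ℝ) ≤ 3 * (k : ℝ) ^ 3 := hs3
      _ ≤ 3 * (12.5 * κ) ^ 3 := by linarith
      _ ≤ 6000 * κ ^ 3 := by ring_nf; linarith
  -- M
  set M := ⌊(a : ℝ) ^ ((2 : ℝ) / 5)⌋₊ with hM
  have hx1 : 1 ≤ (a : ℝ) ^ ((2 : ℝ) / 5) := Real.one_le_rpow hage1 (by norm_num)
  have hM1 : 1 ≤ M := Nat.le_floor (by simpa using hx1)
  have hM0 : (0 : ℝ) < M := by exact_mod_cast hM1
  have hM1' : (1 : ℝ) ≤ M := by exact_mod_cast hM1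
  have hMu : (M : ℝ) ≤ (a : ℝ) ^ ((2 : ℝ) / 5) := Nat.floor_le (by linarith)
  have hMl : (a : ℝ) ^ ((2 : ℝ) / 5) / 2 ≤ M := by
    have := Nat.lt_floor_add_one ((a : ℝ) ^ ((2 : ℝ) / 5))
    rw [← hM] at this
    linarith
  set m := Real.log M with hm
  have hMe : Real.exp m = M := Real.exp_log hM0
  have hm1 : m ≤ 2 / 5 * ℓ := by
    have := Real.log_le_log hM0 hMu
    rwa [Real.log_rpow ha0] at this
  have hm2 : 2 / 5 * ℓ - Real.log 2 ≤ m := by
    have := Real.log_le_log (by positivity) hMl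
    rwa [Real.log_div (by positivity) (by norm_num), Real.log_rpow ha0] at this
  have hl20 : 0 < Real.log 2 := Real.log_pos (by norm_num)
  -- j0
  set j0 := ⌈2 * κ⌉₊ with hj0
  have hj1 : 2 * κ ≤ j0 := Nat.le_ceil _
  have hj2 : (j0 : ℝ) ≤ 2 * κ + 1 := (Nat.ceil_lt_add_one (by linarith)).le
  have hj3 : 1 ≤ j0 := by
    have : (0 : ℝ) < j0 := by linarith
    exact_mod_cast this
  have hjk : j0 ≤ k := by
    have : (j0 : ℝ) ≤ k := by linarith
    exact_mod_cast this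
  have hj3' : (1 : ℝ) ≤ j0 := by exact_mod_cast hj3
  -- the coefficient
  have hn0 : (0 : ℝ) < x := by linarith
  have hpi0 := Real.pi_pos
  have hpi3 := Real.pi_gt_three
  have habs : |alf t x j0| = t / (2 * Real.pi * j0 * x ^ j0) := by
    unfold alf
    rw [abs_div, abs_mul, abs_pow, abs_neg, abs_one, one_pow, one_mul, abs_of_pos ht0,
      abs_of_pos (by positivity)]
  have hal0 : 0 < |alf t x j0| := by rw [habs]; positivity
  have hte : t = Real.exp (κ * ℓ) := by rw [← hlt, Real.exp_log ht0]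
  have hal : 1 / |alf t x j0| ≤ 2 * Real.pi * j0 * Real.exp (j0 * (ℓ + Real.log 2) - κ * ℓ) := by
    rw [habs, one_div_div, Real.exp_sub, ← hte]
    have h1 : x ^ j0 ≤ Real.exp (j0 * (ℓ + Real.log 2)) := by
      rw [Real.exp_nat_mul, Real.exp_add, hae, Real.exp_log (by norm_num)]
      exact pow_le_pow_left₀ hn0.le (by linarith) j0
    rw [mul_div_assoc]
    apply mul_le_mul_of_nonneg_left _ (by positivity)
    exact div_le_div_of_nonneg_right h1 ht0.le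
  have hLe : (((s * M ^ j0 : ℕ) : ℕ) : ℝ) = s * Real.exp (j0 * m) := by
    push_cast
    rw [Real.exp_nat_mul, hMe]
  have hsmall : |alf t x j0| * ((s * M ^ j0 : ℕ) : ℝ) ≤ 1 / 2 := by
    rw [hLe, habs]
    have h1 : Real.exp (j0 * ℓ) ≤ x ^ j0 := by
      rw [Real.exp_nat_mul, hae]
      exact pow_le_pow_left₀ ha0.le han j0
    have h2 : Real.exp (κ * ℓ) * Real.exp (j0 * m) * (12000 * κ ^ 3) ≤ Real.exp (j0 * ℓ) := by
      have h3 : 12000 * κ ^ 3 ≤ Real.exp (κ * ℓ / 5) := by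
        have h4 := Real.pow_div_factorial_le_exp (κ * ℓ / 5) (by positivity) 3
        have h5 : (κ * ℓ / 5) ^ 3 / (Nat.factorial 3 : ℕ) = κ ^ 3 * (ℓ ^ 3 / 750) := by
          have : ((Nat.factorial 3 : ℕ) : ℝ) = 6 := by norm_num [Nat.factorial]
          rw [this]; ring
        rw [h5] at h4
        have h6 : (277 : ℝ) ^ 3 ≤ ℓ ^ 3 := pow_le_pow_left₀ (by norm_num) hℓ1 3
        have h7 : 0 < κ ^ 3 := by positivity
        have h8 : κ ^ 3 * ((277 : ℝ) ^ 3 / 750) ≤ κ ^ 3 * (ℓ ^ 3 / 750) :=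
          mul_le_mul_of_nonneg_left (by linarith) h7.le
        norm_num at h8
        linarith
      calc Real.exp (κ * ℓ) * Real.exp (j0 * m) * (12000 * κ ^ 3)
          ≤ Real.exp (κ * ℓ) * Real.exp (j0 * m) * Real.exp (κ * ℓ / 5) :=
            mul_le_mul_of_nonneg_left h3 (by positivity)
        _ = Real.exp (κ * ℓ + j0 * m + κ * ℓ / 5) := by rw [Real.exp_add, Real.exp_add]
        _ ≤ Real.exp (j0 * ℓ) := by
            apply Real.exp_le_exp.2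
            have a1 : (j0 : ℝ) * m ≤ j0 * (2 / 5 * ℓ) := mul_le_mul_of_nonneg_left hm1 (by linarith)
            have a2 : 2 * κ * (3 / 5 * ℓ) ≤ j0 * (3 / 5 * ℓ) :=
              mul_le_mul_of_nonneg_right hj1 (by linarith)
            linarith
    rw [div_mul_eq_mul_div, div_le_iff₀ (by positivity), hte]
    have h8 : (s : ℝ) * 2 ≤ 12000 * κ ^ 3 := by linarith
    have h9 : (1 : ℝ) ≤ 2 * Real.pi * j0 := by nlinarith
    have h10 : Real.exp (κ * ℓ) * (s * Real.exp (j0 * m)) * 2 ≤ x ^ j0 := by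
      calc Real.exp (κ * ℓ) * (s * Real.exp (j0 * m)) * 2
          = Real.exp (κ * ℓ) * Real.exp (j0 * m) * (s * 2) := by ring
        _ ≤ Real.exp (κ * ℓ) * Real.exp (j0 * m) * (12000 * κ ^ 3) :=
          mul_le_mul_of_nonneg_left h8 (by positivity)
        _ ≤ Real.exp (j0 * ℓ) := h2
        _ ≤ _ := h1
    have h11 : x ^ j0 ≤ 2 * Real.pi * j0 * x ^ j0 :=
      le_mul_of_one_le_left (by positivity) h9
    linarith
  have hL1 : 1 ≤ s * M ^ j0 := Nat.succ_le_of_lt (Nat.mul_pos (by omega) (Nat.pow_pos hM1))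
  have hWs := VKZ.W_small hL1 (abs_pos.1 hal0) hsmall
  have hρ := UBound_rho hκ1 hℓ1 hm1 hm2 hlt hsk hj1 hj2 hjk hj3 (by rw [hlt]; exact hal) hal0
  rw [← hLe] at hρ
  have hW := hWs.trans hρ
  have hmain := UBound_main (t := t) (x := x) (D := - κ * ℓ / 20 - ℓ / 5 + 6 * k)
    (by omega : 2 ≤ k) hs hM1
    (hmvt k M (by omega) hM1) (mem_Icc.2 ⟨hj3, hjk⟩)
    (hW.trans (le_of_eq (by congr 1; ring)))
  refine hmain.trans ?_
  rw [mul_comm (Real.exp (2 * C0 + 24)) ((M : ℝ) ^ 2), mul_assoc ((M : ℝ) ^ 2), ← Real.exp_add]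
  apply mul_le_mul_of_nonneg_left _ (by positivity)
  apply Real.exp_le_exp.2
  -- exponents
  have hk5 : (0 : ℝ) < (k : ℝ) ^ 5 := by positivity
  have e1 : k * Real.log (9 * (s : ℝ) ^ 2) ≤ 18 * (k : ℝ) ^ 5 := by
    have f1 : Real.log (9 * (s : ℝ) ^ 2) ≤ 18 * (k : ℝ) ^ 3 := by
      rw [show 9 * (s : ℝ) ^ 2 = (3 * s) ^ 2 by ring, Real.log_pow]
      have := Real.log_le_sub_one_of_pos (show (0 : ℝ) < 3 * s by linarith)
      push_cast
      linarith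
    have f2 : (k : ℝ) * Real.log (9 * (s : ℝ) ^ 2) ≤ k * (18 * (k : ℝ) ^ 3) :=
      mul_le_mul_of_nonneg_left f1 (by linarith)
    have f3 : (k : ℝ) ^ 4 ≤ (k : ℝ) ^ 5 := pow_le_pow_right₀ (by linarith) (by norm_num)
    nlinarith
  have e2 : 6 * (k : ℝ) ≤ 6 * (k : ℝ) ^ 5 := by
    have : (k : ℝ) ^ 1 ≤ (k : ℝ) ^ 5 := pow_le_pow_right₀ (by linarith) (by norm_num)
    linarith
  have e3 : 2 * C0 * (k : ℝ) ^ 5 + k * Real.log (9 * (s : ℝ) ^ 2) + m / 2 +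
      (- κ * ℓ / 20 - ℓ / 5 + 6 * k) ≤ (2 * C0 + 24) * (k : ℝ) ^ 5 - κ * ℓ / 20 := by
    linarith
  have hs2 : (0 : ℝ) < 4 * (s : ℝ) ^ 2 := by positivity
  have e4 : (k : ℝ) ^ 5 ≤ 4 * (s : ℝ) ^ 2 := by
    have g1 : 2 * (k : ℝ) ^ 3 ≤ s := by rw [hsr]; linarith
    have g2 : (2 * (k : ℝ) ^ 3) ^ 2 ≤ (s : ℝ) ^ 2 := pow_le_pow_left₀ (by positivity) g1 2
    have g3 : (k : ℝ) ^ 5 ≤ (k : ℝ) ^ 6 := pow_le_pow_right₀ (by linarith) (by norm_num)
    nlinarith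
  have e5 : (2 * C0 * (k : ℝ) ^ 5 + k * Real.log (9 * (s : ℝ) ^ 2) + m / 2 +
      (- κ * ℓ / 20 - ℓ / 5 + 6 * k)) / (4 * s ^ 2) ≤
      (2 * C0 + 24) - κ * ℓ / (80 * s ^ 2) := by
    rw [div_le_iff₀ hs2]
    have g1 : ((2 * C0 + 24) - κ * ℓ / (80 * s ^ 2)) * (4 * (s : ℝ) ^ 2) =
        (2 * C0 + 24) * (4 * (s : ℝ) ^ 2) - κ * ℓ / 20 := by
      field_simp
      ring
    rw [g1]
    have g2 : (2 * C0 + 24) * (k : ℝ) ^ 5 ≤ (2 * C0 + 24) * (4 * (s : ℝ) ^ 2) :=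
      mul_le_mul_of_nonneg_left e4 (by linarith)
    linarith
  refine e5.trans ?_
  have e6 : 1 / (80 * 6000 ^ 2) * ℓ ^ 6 / Real.log t ^ 5 ≤ κ * ℓ / (80 * s ^ 2) := by
    have g1 : 1 / (80 * 6000 ^ 2) * ℓ ^ 6 / Real.log t ^ 5 = κ * ℓ / (80 * (6000 * κ ^ 3) ^ 2) := by
      rw [hlt]
      field_simp
    rw [g1]
    apply div_le_div_of_nonneg_left (by positivity) (by positivity)
    have g2 : (s : ℝ) ^ 2 ≤ (6000 * κ ^ 3) ^ 2 := pow_le_pow_left₀ hs0.le hsκ 2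
    linarith
  have e7 : -(1 / (80 * 6000 ^ 2)) * ℓ ^ 6 / Real.log t ^ 5 =
      - (1 / (80 * 6000 ^ 2) * ℓ ^ 6 / Real.log t ^ 5) := by ring
  rw [e7]
  linarith

end VKC
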